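import Pool.Agent.Helper15.AB.GoalsE

/-! # Project AB, packet XI -/

open MeasureTheory Set Filter Topology
open scoped ContDiff

noncomputable section

namespace Pool.Agent.Helper98.AB

open Pool.Agent.Helper24.AB Pool.Agent.Helper15.AB

theorem sqrt5_pos : 0 < Real.sqrt 5 := Real.sqrt_pos.2 (by norm_num)

theorem ph_sub : ph - ph' = Real.sqrt 5 := by
  unfold ph ph'
  ring

/-- a complex valued function from its real and imaginary parts -/
theorem mk_contDiffOn {E : Type*} [NormedAddCommGroup E] [NormedSpace ℝ E] {f g : E → ℝ} {D : Set E}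
    (hf : ContDiffOn ℝ ∞ f D) (hg : ContDiffOn ℝ ∞ g D) :
    ContDiffOn ℝ ∞ (fun q => (⟨f q, g q⟩ : ℂ)) D := by
  have h1 : (fun q => (⟨f q, g q⟩ : ℂ)) = fun q => Complex.equivRealProdCLM.symm (f q, g q) := by
    funext q
    rw [Complex.equivRealProdCLM_symm_apply]
    exact Complex.mk_eq_add_mul_I _ _
  rw [h1]
  exact Complex.equivRealProdCLM.symm.contDiff.comp_contDiffOn (hf.prodMk hg)

section
variable (a A : ℝ) (s : ℝ → ℝ) (p : ℂ → ℝ)

theorem Xi_3 (q : (Fin 4 → ℝ) × (Fin 4 → ℝ)) : Xi a A s p q 3 = ⟨q.1 3, q.2 3⟩ := rfl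

theorem Xi_xp (q : (Fin 4 → ℝ) × (Fin 4 → ℝ)) : xp (Xi a A s p q) =
    Real.exp (kap * q.2 3) * (A + Real.sqrt (Atl a A s (q.1 3)) * q.1 0) - p ⟨q.1 3, q.2 3⟩ := by
  have h0 : (Xi a A s p q 0).re = ph * (Real.exp (kap * q.2 3) *
    (A + Real.sqrt (Atl a A s (q.1 3)) * q.1 0) - p ⟨q.1 3, q.2 3⟩) +
    ph' * (Real.exp (-(kap * q.2 3)) * (2 * A * q.1 1)) := rfl
  have h1 : (Xi a A s p q 1).re = (Real.exp (kap * q.2 3) *
    (A + Real.sqrt (Atl a A s (q.1 3)) * q.1 0) - p ⟨q.1 3, q.2 3⟩) +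
    (Real.exp (-(kap * q.2 3)) * (2 * A * q.1 1)) := rfl
  unfold xp
  rw [h0, h1, div_eq_iff sqrt5_pos.ne', ← ph_sub]
  ring

theorem Xi_xm (q : (Fin 4 → ℝ) × (Fin 4 → ℝ)) : xm (Xi a A s p q) =
    Real.exp (-(kap * q.2 3)) * (2 * A * q.1 1) := by
  have h0 : (Xi a A s p q 0).re = ph * (Real.exp (kap * q.2 3) *
    (A + Real.sqrt (Atl a A s (q.1 3)) * q.1 0) - p ⟨q.1 3, q.2 3⟩) +
    ph' * (Real.exp (-(kap * q.2 3)) * (2 * A * q.1 1)) := rfl
  have h1 : (Xi a A s p q 1).re = (Real.exp (kap * q.2 3) *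
    (A + Real.sqrt (Atl a A s (q.1 3)) * q.1 0) - p ⟨q.1 3, q.2 3⟩) +
    (Real.exp (-(kap * q.2 3)) * (2 * A * q.1 1)) := rfl
  unfold xm
  rw [h0, h1, div_eq_iff sqrt5_pos.ne', ← ph_sub]
  ring

theorem Xi_x0 (q : (Fin 4 → ℝ) × (Fin 4 → ℝ)) : x0 (Xi a A s p q) = 2 * A * q.1 2 := rfl

theorem Xi_yp (q : (Fin 4 → ℝ) × (Fin 4 → ℝ)) : ypf p (Xi a A s p q) =
    A + Real.sqrt (Atl a A s (q.1 3)) * q.1 0 := by
  unfold ypf
  rw [Xi_xp, Xi_3, sub_add_cancel, ← mul_assoc, ← Real.exp_add, neg_add_cancel, Real.exp_zero, one_mul]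

theorem Xi_ym (q : (Fin 4 → ℝ) × (Fin 4 → ℝ)) : ymf (Xi a A s p q) = 2 * A * q.1 1 := by
  unfold ymf
  rw [Xi_xm, Xi_3, ← mul_assoc, ← Real.exp_add, add_neg_cancel, Real.exp_zero, one_mul]

end

/-- coordinates from the eigen-coordinates -/
theorem re_of (P : V4) : ph * xp P + ph' * xm P = (P 0).re ∧ xp P + xm P = (P 1).re := by
  unfold xp xm
  have h := sqrt5_pos.ne'
  have h2 := ph_sub
  constructor
  · field_simp
    linear_combination (P 0).re * h2
  · field_simp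
    linear_combination (P 1).re * h2

theorem xi (hATL : S_ATL) : S_XI := by
  intro a A s p hs hp
  obtain ⟨hAs, hAp, -, -⟩ := hATL a A s hs
  have hA := hs.A_pos
  have ha := hs.a_pos
  have hsq : ∀ x, 0 < Real.sqrt (Atl a A s x) := fun x => Real.sqrt_pos.2 (hAp x)
  have hsqs : ContDiff ℝ ∞ fun x => Real.sqrt (Atl a A s x) := hAs.sqrt fun x => (hAp x).ne'
  set D : Set ((Fin 4 → ℝ) × (Fin 4 → ℝ)) := {q | |q.1 3| < 3 * a / 2} with hD
  set D' : Set V4 := {P | |(P 3).re| < 3 * a / 2} with hD'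
  have hD'o : IsOpen D' := isOpen_lt (by fun_prop) continuous_const
  have hDo : IsOpen D := isOpen_lt (by fun_prop) continuous_const
  -- projections
  have c1 : ∀ i : Fin 4, ContDiff ℝ ∞ fun q : (Fin 4 → ℝ) × (Fin 4 → ℝ) => q.1 i := fun i =>
    (contDiff_apply ℝ ℝ i).comp contDiff_fst
  have c2 : ∀ i : Fin 4, ContDiff ℝ ∞ fun q : (Fin 4 → ℝ) × (Fin 4 → ℝ) => q.2 i := fun i =>
    (contDiff_apply ℝ ℝ i).comp contDiff_snd
  have hw : ContDiffOn ℝ ∞ (fun q : (Fin 4 → ℝ) × (Fin 4 → ℝ) => (⟨q.1 3, q.2 3⟩ : ℂ)) D :=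
    mk_contDiffOn (c1 3).contDiffOn (c2 3).contDiffOn
  have hpw : ContDiffOn ℝ ∞ (fun q : (Fin 4 → ℝ) × (Fin 4 → ℝ) => p ⟨q.1 3, q.2 3⟩) D :=
    hp.comp hw fun q hq => hq
  have hXp : ContDiffOn ℝ ∞ (fun q : (Fin 4 → ℝ) × (Fin 4 → ℝ) => Real.exp (kap * q.2 3) *
      (A + Real.sqrt (Atl a A s (q.1 3)) * q.1 0) - p ⟨q.1 3, q.2 3⟩) D := by
    refine ContDiffOn.sub (ContDiff.contDiffOn ?_) hpw
    exact ((contDiff_const.mul (c2 3)).exp).mul (contDiff_const.add ((hsqs.comp (c1 3)).mul (c1 0)))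
  have hXq : ContDiff ℝ ∞ (fun q : (Fin 4 → ℝ) × (Fin 4 → ℝ) => Real.exp (-(kap * q.2 3)) *
      (2 * A * q.1 1)) :=
    ((contDiff_const.mul (c2 3)).neg.exp).mul (contDiff_const.mul (c1 1))
  have hXi : ContDiffOn ℝ ∞ (Xi a A s p) D := by
    rw [contDiffOn_pi]
    intro i
    fin_cases i
    · exact mk_contDiffOn ((contDiffOn_const.mul hXp).add (contDiffOn_const.mul hXq.contDiffOn))
        (c2 0).contDiffOn
    · exact mk_contDiffOn (hXp.add hXq.contDiffOn) (c2 1).contDiffOn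
    · exact mk_contDiffOn (contDiff_const.mul (c1 2)).contDiffOn (c2 2).contDiffOn
    · exact hw
  -- the eigen-coordinates are smooth
  have r1 : ∀ i : Fin 4, ContDiff ℝ ∞ fun P : V4 => (P i).re := fun i =>
    Complex.reCLM.contDiff.comp (contDiff_apply ℝ ℂ i)
  have i1 : ∀ i : Fin 4, ContDiff ℝ ∞ fun P : V4 => (P i).im := fun i =>
    Complex.imCLM.contDiff.comp (contDiff_apply ℝ ℂ i)
  have hxp : ContDiff ℝ ∞ xp := ((r1 0).sub (contDiff_const.mul (r1 1))).div_const _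
  have hxm : ContDiff ℝ ∞ xm := ((contDiff_const.mul (r1 1)).sub (r1 0)).div_const _
  have hx0 : ContDiff ℝ ∞ x0 := r1 2
  have hpP : ContDiffOn ℝ ∞ (fun P : V4 => p (P 3)) D' :=
    hp.comp (contDiff_apply ℝ ℂ 3).contDiffOn fun P hP => hP
  have hyp : ContDiffOn ℝ ∞ (ypf p) D' :=
    ((contDiff_const.mul (i1 3)).neg.exp).contDiffOn.mul (hxp.contDiffOn.add hpP)
  have hym : ContDiff ℝ ∞ ymf := ((contDiff_const.mul (i1 3)).exp).mul hxm
  have hXiI : ContDiffOn ℝ ∞ (XiI a A s p) D' := by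
    refine ContDiffOn.prodMk ?_ ?_
    · rw [contDiffOn_pi]
      intro i
      fin_cases i
      · exact (hyp.sub contDiffOn_const).div (hsqs.comp (r1 3)).contDiffOn fun P _ => (hsq _).ne'
      · exact (hym.div_const _).contDiffOn
      · exact (hx0.div_const _).contDiffOn
      · exact (r1 3).contDiffOn
    · rw [contDiffOn_pi]
      intro i
      exact (i1 i).contDiffOn
  have hr : ContDiffOn ℝ ∞ (rfun a A s p) D' := by
    unfold rfun
    refine ContDiffOn.sub (ContDiffOn.add ?_ ?_) ?_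
    · exact ((hyp.sub contDiffOn_const).pow 2).div (hAs.comp (r1 3)).contDiffOn fun P _ => (hAp _).ne'
    · exact (((hym.pow 2).add (hx0.pow 2)).div_const _).contDiffOn
    · exact (contDiff_const.sub ((r1 3).pow 2)).contDiffOn
  have hrXi : ∀ q, rfun a A s p (Xi a A s p q) = (∑ i, q.1 i ^ 2) - a ^ 2 := by
    intro q
    unfold rfun
    rw [Xi_yp, Xi_ym, Xi_x0, Xi_3, Fin.sum_univ_four]
    simp only
    have h1 : Real.sqrt (Atl a A s (q.1 3)) ^ 2 = Atl a A s (q.1 3) := Real.sq_sqrt (hAp _).le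
    have h2 : (A + Real.sqrt (Atl a A s (q.1 3)) * q.1 0 - A) ^ 2 / Atl a A s (q.1 3) = q.1 0 ^ 2 := by
      rw [add_sub_cancel_left, mul_pow, h1, mul_div_cancel_left₀ _ (hAp _).ne']
    rw [h2]
    field_simp
    ring
  have hOm : ∀ q, Xi a A s p q ∈ Omt a A s p ↔ (∑ i, q.1 i ^ 2) < a ^ 2 := by
    intro q
    have h1 : (Xi a A s p q ∈ Omt a A s p) ↔ (|q.1 3| < 3 * a / 2 ∧ rfun a A s p (Xi a A s p q) < 0) :=
      Iff.rfl
    rw [h1, hrXi, sub_neg]
    refine ⟨fun h => h.2, fun h => ⟨?_, h⟩⟩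
    have h2 : q.1 3 ^ 2 < a ^ 2 :=
      lt_of_le_of_lt (Finset.single_le_sum (f := fun i => q.1 i ^ 2) (fun i _ => sq_nonneg _)
        (Finset.mem_univ 3)) h
    have h3 : |q.1 3| < a := abs_lt_of_sq_lt_sq h2 ha.le
    linarith
  refine ⟨hXi, hXiI, ?_, ?_, fun q => rfl, hrXi, hOm, ?_⟩
  · intro q
    unfold XiI
    rw [Xi_yp, Xi_ym, Xi_x0, Xi_3]
    refine Prod.ext ?_ ?_
    · funext i
      fin_cases i
      · show (A + Real.sqrt (Atl a A s (q.1 3)) * q.1 0 - A) / Real.sqrt (Atl a A s (q.1 3)) = q.1 0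
        rw [add_sub_cancel_left, mul_div_cancel_left₀ _ (hsq _).ne']
      · show 2 * A * q.1 1 / (2 * A) = q.1 1
        field_simp
      · show 2 * A * q.1 2 / (2 * A) = q.1 2
        field_simp
      · rfl
    · funext i
      fin_cases i <;> rfl
  · intro P
    obtain ⟨e0, e1⟩ := re_of P
    have h1 : Real.exp (kap * (P 3).im) * (A + Real.sqrt (Atl a A s (P 3).re) *
        ((ypf p P - A) / Real.sqrt (Atl a A s (P 3).re))) - p (P 3) = xp P := by
      rw [mul_div_cancel₀ _ (hsq _).ne', add_sub_cancel]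
      unfold ypf
      rw [← mul_assoc, ← Real.exp_add, add_neg_cancel, Real.exp_zero, one_mul, add_sub_cancel_right]
    have h2 : Real.exp (-(kap * (P 3).im)) * (2 * A * (ymf P / (2 * A))) = xm P := by
      rw [mul_div_cancel₀ _ (by positivity : (2 * A) ≠ 0)]
      unfold ymf
      rw [← mul_assoc, ← Real.exp_add, neg_add_cancel, Real.exp_zero, one_mul]
    have hP3 : (⟨(P 3).re, (P 3).im⟩ : ℂ) = P 3 := Complex.eta _
    funext i
    fin_cases i
    · show (⟨ph * (Real.exp (kap * (P 3).im) * (A + Real.sqrt (Atl a A s (P 3).re) *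
        ((ypf p P - A) / Real.sqrt (Atl a A s (P 3).re))) - p ⟨(P 3).re, (P 3).im⟩) +
        ph' * (Real.exp (-(kap * (P 3).im)) * (2 * A * (ymf P / (2 * A)))), (P 0).im⟩ : ℂ) = P 0
      rw [hP3, h1, h2, e0]
    · show (⟨(Real.exp (kap * (P 3).im) * (A + Real.sqrt (Atl a A s (P 3).re) *
        ((ypf p P - A) / Real.sqrt (Atl a A s (P 3).re))) - p ⟨(P 3).re, (P 3).im⟩) +
        (Real.exp (-(kap * (P 3).im)) * (2 * A * (ymf P / (2 * A)))), (P 1).im⟩ : ℂ) = P 1
      rw [hP3, h1, h2, e1]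
    · show (⟨2 * A * (x0 P / (2 * A)), (P 2).im⟩ : ℂ) = P 2
      rw [mul_div_cancel₀ _ (by positivity : (2 * A) ≠ 0)]
      rfl
    · rfl
  · intro q
    constructor
    · intro h
      have hcl : ∀ P ∈ closure (Omt a A s p), |(P 3).re| ≤ a := by
        intro P hP
        have hc : IsClosed {P : V4 | |(P 3).re| ≤ a} := isClosed_le (by fun_prop) continuous_const
        refine closure_minimal (fun Q hQ => ?_) hc hP
        have hQr : rfun a A s p Q < 0 := hQ.2
        unfold rfun at hQr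
        have h1 : 0 ≤ (ypf p Q - A) ^ 2 / Atl a A s (Q 3).re := div_nonneg (sq_nonneg _) (hAp _).le
        have h2 : 0 ≤ (ymf Q ^ 2 + x0 Q ^ 2) / (4 * A ^ 2) := by positivity
        have h3 : (Q 3).re ^ 2 < a ^ 2 := by linarith
        exact (abs_lt_of_sq_lt_sq h3 ha.le).le
      have h1 := hcl _ h
      have h2 : Xi a A s p q ∈ D' := by
        show |(Xi a A s p q 3).re| < 3 * a / 2
        linarith
      have h3 : ContinuousAt (rfun a A s p) (Xi a A s p q) := hr.continuousOn.continuousAt (hD'o.mem_nhds h2)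
      have h4 : rfun a A s p (Xi a A s p q) ≤ 0 := by
        rw [mem_closure_iff_clusterPt, ClusterPt] at h
        have h5 : Tendsto (rfun a A s p) (𝓝 (Xi a A s p q) ⊓ 𝓟 (Omt a A s p))
            (𝓝 (rfun a A s p (Xi a A s p q))) := h3.mono_left inf_le_left
        refine le_of_tendsto h5 ?_
        have h6 : ∀ᶠ Q in 𝓟 (Omt a A s p), rfun a A s p Q ≤ 0 := by
          rw [eventually_principal]
          intro Q hQ
          exact le_of_lt hQ.2
        exact h6.filter_mono inf_le_right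
      rw [hrXi] at h4
      linarith
    · intro h
      have h3 : |q.1 3| ≤ a := by
        have h2 : q.1 3 ^ 2 ≤ a ^ 2 :=
          le_trans (Finset.single_le_sum (f := fun i => q.1 i ^ 2) (fun i _ => sq_nonneg _)
            (Finset.mem_univ 3)) h
        exact abs_le_of_sq_le_sq h2 ha.le
      have hqD : q ∈ D := by
        show |q.1 3| < 3 * a / 2
        linarith
      have h4 : ContinuousAt (Xi a A s p) q := hXi.continuousOn.continuousAt (hDo.mem_nhds hqD)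
      have h5 : Tendsto (fun t : ℝ => (t • q.1, q.2)) (𝓝[<] 1) (𝓝 q) := by
        have h6 : Continuous fun t : ℝ => (t • q.1, q.2) := by fun_prop
        have h7 := h6.tendsto 1
        simp only [one_smul] at h7
        exact h7.mono_left nhdsWithin_le_nhds
      have h6 := h4.tendsto.comp h5
      refine mem_closure_of_tendsto h6 ?_
      have h7 : Ioo (0 : ℝ) 1 ∈ 𝓝[<] (1 : ℝ) := Ioo_mem_nhdsLT one_pos
      filter_upwards [h7] with t ht
      show Xi a A s p (t • q.1, q.2) ∈ Omt a A s p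
      rw [hOm]
      have h8 : ∑ i, (t • q.1) i ^ 2 = t ^ 2 * ∑ i, q.1 i ^ 2 := by
        rw [Finset.mul_sum]
        apply Finset.sum_congr rfl
        intro i _
        simp only [Pi.smul_apply, smul_eq_mul]
        ring
      show ∑ i, (t • q.1) i ^ 2 < a ^ 2
      rw [h8]
      have h9 : t ^ 2 < 1 := by
        have := ht.1
        have := ht.2
        nlinarith
      have h10 : 0 < a ^ 2 := by positivity
      calc t ^ 2 * ∑ i, q.1 i ^ 2 ≤ t ^ 2 * a ^ 2 := mul_le_mul_of_nonneg_left h (sq_nonneg _)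
        _ < 1 * a ^ 2 := mul_lt_mul_of_pos_right h9 h10
        _ = a ^ 2 := one_mul _

end Pool.Agent.Helper98.AB
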