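import Pool.Agent.Helper98.AB.SUPM

/-! # Project AB, packet LIMU -/

open MeasureTheory Set Filter Topology
open scoped ContDiff

noncomputable section

namespace Pool.Agent.Helper98.AB

open Pool.Agent.Helper24.AB Pool.Agent.Helper15.AB

/-- reduction to the period box -/
theorem exists_shift (x : ℝ) : ∃ k : ℤ, x + 2 * Real.pi * k ∈ Icc (0 : ℝ) (2 * Real.pi) := by
  have hp : 0 < 2 * Real.pi := by positivity
  obtain ⟨k, hk, -⟩ := existsUnique_add_zsmul_mem_Ico hp x 0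
  refine ⟨k, ?_⟩
  have h1 : x + k • (2 * Real.pi) = x + 2 * Real.pi * k := by
    rw [zsmul_eq_mul]; ring
  rw [h1, zero_add] at hk
  exact ⟨hk.1, hk.2.le⟩

theorem tE_eq_add (k : Fin 3 → ℤ) (P : V4) : tE k P = P + tE k 0 := by
  unfold tE
  funext i
  fin_cases i <;> simp

theorem fderiv_tE {ee a : ℝ} {q m : ℂ → ℝ} {W U : Set V4} {R : V4 → ℝ}
    (hD : IsDat ee a q m W U R) {P : V4} (hP : P ∈ U) (k : Fin 3 → ℤ) :
    fderiv ℝ R (tE k P) = fderiv ℝ R P := by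
  have h1 : (fun Q => R (Q + tE k 0)) =ᶠ[𝓝 P] R := by
    filter_upwards [hD.openU.mem_nhds hP] with Q hQ
    rw [← tE_eq_add]
    exact hD.R_t Q hQ k
  have h2 : fderiv ℝ (fun Q => R (Q + tE k 0)) P = fderiv ℝ R (P + tE k 0) :=
    fderiv_comp_add_right _
  rw [tE_eq_add k P, ← h2, h1.fderiv_eq]

/-- `D R (zP (q w - ξ) x y u w) e₊` -/
def DR (q : ℂ → ℝ) (R : V4 → ℝ) (ξ : ℝ) (w : ℂ) (x y u : ℝ) : ℝ :=
  fderiv ℝ R (zP ((q w - ξ : ℝ) : ℂ) x y u w) eP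

theorem fd_contAt {ee a : ℝ} {q m : ℂ → ℝ} {W U : Set V4} {R : V4 → ℝ}
    (hD : IsDat ee a q m W U R) {P : V4} (hP : P ∈ U) :
    ContinuousAt (fun Q => fderiv ℝ R Q eP) P := by
  have h1 : ContDiffAt ℝ 0 (fderiv ℝ R) P :=
    (R_contAt hD hP).fderiv_right (m := 0) (by norm_num)
  exact h1.continuousAt.clm_apply continuousAt_const

/-- the mean value theorem along `e₊` -/
theorem mv_top (hPER : S_PER) {ee a : ℝ} {q m : ℂ → ℝ} {W U : Set V4} {R : V4 → ℝ}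
    (hD : IsDat ee a q m W U R) {w : ℂ} (hw : w ∈ strip (a / 2)) {x y u τ : ℝ} (hτ : 0 < τ)
    (hin : ∀ ξ ∈ Icc (0 : ℝ) τ, zP ((q w - ξ : ℝ) : ℂ) x y u w ∈ U) :
    ∃ ξ ∈ Ioo (0 : ℝ) τ, -R (zP ((q w - τ : ℝ) : ℂ) x y u w) = τ * DR q R ξ w x y u := by
  set h : ℝ → ℝ := fun ξ => R (zP ((q w - ξ : ℝ) : ℂ) x y u w) with hh
  have hline : ∀ ξ : ℝ, zP ((q w - ξ : ℝ) : ℂ) x y u w = zP ((q w : ℝ) : ℂ) x y u w + (-ξ) • eP := by
    intro ξ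
    rw [hPER.2.2.2]
    congr 1
    push_cast
    ring
  have hder : ∀ ξ ∈ Icc (0 : ℝ) τ, HasDerivAt h (-DR q R ξ w x y u) ξ := by
    intro ξ hξ
    have h1 : HasFDerivAt R (fderiv ℝ R (zP ((q w - ξ : ℝ) : ℂ) x y u w))
        (zP ((q w : ℝ) : ℂ) x y u w + (-ξ) • eP) := by
      rw [← hline]
      exact ((R_contAt hD (hin ξ hξ)).differentiableAt (by norm_num)).hasFDerivAt
    have h2 : HasDerivAt (fun ξ : ℝ => zP ((q w : ℝ) : ℂ) x y u w + (-ξ) • eP) (-eP) ξ := by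
      have := (((hasDerivAt_id ξ).neg).smul_const eP).const_add (zP ((q w : ℝ) : ℂ) x y u w)
      simpa using this
    have h3 := h1.comp_hasDerivAt ξ h2
    have h4 : h = R ∘ fun ξ : ℝ => zP ((q w : ℝ) : ℂ) x y u w + (-ξ) • eP := by
      funext ξ
      simp only [hh, Function.comp, hline]
    rw [h4]
    simpa [DR] using h3
  obtain ⟨ξ, hξ, h5⟩ := exists_hasDerivAt_eq_slope h (fun ξ => -DR q R ξ w x y u) hτ
    (fun ξ hξ => (hder ξ hξ).continuousAt.continuousWithinAt)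
    (fun ξ hξ => hder ξ (Ioo_subset_Icc_self hξ))
  refine ⟨ξ, hξ, ?_⟩
  have h6 : h 0 = 0 := by
    simp only [hh, sub_zero]
    exact hD.top0 w hw _ _ _ _ (by simp)
  rw [h6, sub_zero, sub_zero, eq_div_iff hτ.ne'] at h5
  have h7 : h τ = R (zP ((q w - τ : ℝ) : ℂ) x y u w) := rfl
  rw [← h7]
  linarith

/-- the local uniform estimate -/
theorem local_est {ee a : ℝ} {q m : ℂ → ℝ} {W U : Set V4} {R : V4 → ℝ}
    (hD : IsDat ee a q m W U R) {K : Set ℂ} (hK : K ⊆ strip (a / 2)) (hKc : IsCompact K) {ε : ℝ}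
    (hε : 0 < ε) : ∃ τ₁ : ℝ, 0 < τ₁ ∧ ∀ ξ : ℝ, 0 ≤ ξ → ξ < τ₁ → ∀ w ∈ K,
      ∀ x ∈ Icc (0 : ℝ) (2 * Real.pi), ∀ y ∈ Icc (0 : ℝ) (2 * Real.pi),
      ∀ u ∈ Icc (0 : ℝ) (2 * Real.pi), zP ((q w - ξ : ℝ) : ℂ) x y u w ∈ U ∧ 0 < DR q R ξ w x y u ∧
        |(DR q R ξ w x y u) ^ ee - (DR q R 0 w x y u) ^ ee| ≤ ε := by
  set B : Set ℝ := Icc (0 : ℝ) (2 * Real.pi) with hB
  set T : Set (ℂ × ℝ × ℝ × ℝ) := K ×ˢ B ×ˢ B ×ˢ B with hT
  have hTc : IsCompact T := hKc.prod (isCompact_Icc.prod (isCompact_Icc.prod isCompact_Icc))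
  have hev : ∀ᶠ ξ in 𝓝 (0 : ℝ), ∀ v ∈ T, zP ((q v.1 - ξ : ℝ) : ℂ) v.2.1 v.2.2.1 v.2.2.2 v.1 ∈ U ∧
      0 < DR q R ξ v.1 v.2.1 v.2.2.1 v.2.2.2 ∧
      |(DR q R ξ v.1 v.2.1 v.2.2.1 v.2.2.2) ^ ee - (DR q R 0 v.1 v.2.1 v.2.2.1 v.2.2.2) ^ ee| ≤ ε := by
    apply hTc.eventually_forall_of_forall_eventually
    intro v hv
    obtain ⟨hv1, -⟩ := hv
    have hvs : v.1 ∈ strip (a / 2) := hK hv1
    have hq : ContinuousAt q v.1 := hD.q_smooth.continuousOn.continuousAt ((strip_open _).mem_nhds hvs)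
    -- the map
    set Φ : ℝ × ℂ × ℝ × ℝ × ℝ → V4 := fun t => zP ((q t.2.1 - t.1 : ℝ) : ℂ) t.2.2.1 t.2.2.2.1 t.2.2.2.2 t.2.1
      with hΦ
    set Φ₀ : ℝ × ℂ × ℝ × ℝ × ℝ → V4 := fun t => zP ((q t.2.1 - 0 : ℝ) : ℂ) t.2.2.1 t.2.2.2.1 t.2.2.2.2 t.2.1
      with hΦ₀
    have hq' : ContinuousAt (fun t : ℝ × ℂ × ℝ × ℝ × ℝ => q t.2.1) ((0 : ℝ), v) :=
      ContinuousAt.comp (f := fun t : ℝ × ℂ × ℝ × ℝ × ℝ => t.2.1) hq (by fun_prop)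
    have hΦc : ContinuousAt Φ ((0 : ℝ), v) := by
      refine ContinuousAt.comp (g := fun v : ℂ × ℝ × ℝ × ℝ × ℂ => zP v.1 v.2.1 v.2.2.1 v.2.2.2.1 v.2.2.2.2)
        (f := fun t : ℝ × ℂ × ℝ × ℝ × ℝ =>
        ((((q t.2.1 - t.1 : ℝ) : ℂ), t.2.2.1, t.2.2.2.1, t.2.2.2.2, t.2.1) : ℂ × ℝ × ℝ × ℝ × ℂ))
        zP_cont.continuousAt ?_
      refine ContinuousAt.prodMk ?_ (by fun_prop)
      exact Complex.continuous_ofReal.continuousAt.comp (hq'.sub (by fun_prop))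
    have hΦ₀c : ContinuousAt Φ₀ ((0 : ℝ), v) := by
      refine ContinuousAt.comp (g := fun v : ℂ × ℝ × ℝ × ℝ × ℂ => zP v.1 v.2.1 v.2.2.1 v.2.2.2.1 v.2.2.2.2)
        (f := fun t : ℝ × ℂ × ℝ × ℝ × ℝ =>
        ((((q t.2.1 - 0 : ℝ) : ℂ), t.2.2.1, t.2.2.2.1, t.2.2.2.2, t.2.1) : ℂ × ℝ × ℝ × ℝ × ℂ))
        zP_cont.continuousAt ?_
      refine ContinuousAt.prodMk ?_ (by fun_prop)
      exact Complex.continuous_ofReal.continuousAt.comp (hq'.sub (by fun_prop))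
    have hΦe : Φ ((0 : ℝ), v) = Φ₀ ((0 : ℝ), v) := rfl
    have hre : (((q v.1 - 0 : ℝ) : ℂ)).re = q v.1 := by simp
    have hU0 : Φ₀ ((0 : ℝ), v) ∈ U := hD.topU v.1 hvs _ _ _ _ hre
    have hpos : 0 < fderiv ℝ R (Φ₀ ((0 : ℝ), v)) eP := hD.top1 v.1 hvs _ _ _ _ hre
    have hDc : ContinuousAt (fun t => fderiv ℝ R (Φ t) eP) ((0 : ℝ), v) :=
      ContinuousAt.comp (f := Φ) (g := fun Q => fderiv ℝ R Q eP) (fd_contAt hD (by rw [hΦe]; exact hU0)) hΦc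
    have hDc0 : ContinuousAt (fun t => fderiv ℝ R (Φ₀ t) eP) ((0 : ℝ), v) :=
      ContinuousAt.comp (f := Φ₀) (g := fun Q => fderiv ℝ R Q eP) (fd_contAt hD hU0) hΦ₀c
    have h1 : ∀ᶠ t in 𝓝 ((0 : ℝ), v), Φ t ∈ U := hΦc.eventually_mem (by
      rw [hΦe]; exact hD.openU.mem_nhds hU0)
    have h2 : ∀ᶠ t in 𝓝 ((0 : ℝ), v), 0 < fderiv ℝ R (Φ t) eP := hDc.eventually_const_lt (by
      show 0 < fderiv ℝ R (Φ ((0 : ℝ), v)) eP
      rw [hΦe]; exact hpos)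
    have h3 : ContinuousAt (fun t => |(fderiv ℝ R (Φ t) eP) ^ ee - (fderiv ℝ R (Φ₀ t) eP) ^ ee|)
        ((0 : ℝ), v) :=
      ((hDc.rpow_const (Or.inr hD.ee_pos.le)).sub (hDc0.rpow_const (Or.inr hD.ee_pos.le))).abs
    have h4 : ∀ᶠ t in 𝓝 ((0 : ℝ), v),
        |(fderiv ℝ R (Φ t) eP) ^ ee - (fderiv ℝ R (Φ₀ t) eP) ^ ee| < ε := by
      apply h3.eventually_lt_const
      show |(fderiv ℝ R (Φ ((0 : ℝ), v)) eP) ^ ee - (fderiv ℝ R (Φ₀ ((0 : ℝ), v)) eP) ^ ee| < ε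
      rw [hΦe, sub_self, abs_zero]
      exact hε
    filter_upwards [h1, h2, h4] with t ht1 ht2 ht4
    exact ⟨ht1, ht2, ht4.le⟩
  obtain ⟨τ₁, hτ₁, h⟩ := Metric.eventually_nhds_iff.1 hev
  refine ⟨τ₁, hτ₁, fun ξ hξ0 hξ w hw x hx y hy u hu => ?_⟩
  exact h (y := ξ) (by rw [Real.dist_eq, sub_zero, abs_of_nonneg hξ0]; exact hξ) (w, x, y, u)
    ⟨hw, hx, hy, hu⟩

theorem limu (hPER : S_PER) (hAVB : S_AVB) : S_LIMU := by
  intro ee a q m W U R hD K hK hKc ε hε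
  obtain ⟨τ₀, hτ₀, hloc⟩ := local_est hD hK hKc hε
  -- lower bound for m
  obtain ⟨m₀, hm₀, hm⟩ : ∃ m₀ : ℝ, 0 < m₀ ∧ ∀ w ∈ K, m₀ ≤ m w := by
    rcases K.eq_empty_or_nonempty with rfl | hne
    · exact ⟨1, one_pos, by simp⟩
    · obtain ⟨w₁, hw₁, hmin⟩ := hKc.exists_isMinOn hne (hD.m_cont.mono hK)
      exact ⟨m w₁, hD.m_pos _ (hK hw₁), fun w hw => hmin hw⟩
  refine ⟨min τ₀ m₀, lt_min hτ₀ hm₀, fun τ hτ hτ1 w hw => ?_⟩
  have hτa : τ < τ₀ := hτ1.trans_le (min_le_left _ _)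
  have hτb : τ < m w := hτ1.trans_le ((min_le_right _ _).trans (hm w hw))
  have hws := hK hw
  have hr1 : q w - m w < (((q w - τ : ℝ) : ℂ)).re := by rw [Complex.ofReal_re]; linarith
  have hr2 : (((q w - τ : ℝ) : ℂ)).re < q w := by rw [Complex.ofReal_re]; linarith
  have hF := torus_cont hD hws hr1 hr2
  have hFp := torus_per hPER hD hws hr1 hr2
  set G : ℝ → ℝ → ℝ → ℝ := fun x y u => (fderiv ℝ R (zP (q w) x y u w) eP) ^ ee with hG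
  have hGc : Cont3 G := by
    unfold Cont3
    have hc : Continuous fun v : ℝ × ℝ × ℝ => zP (q w) v.1 v.2.1 v.2.2 w :=
      zP_cont.comp (by fun_prop : Continuous fun v : ℝ × ℝ × ℝ =>
        (((q w : ℂ), v.1, v.2.1, v.2.2, w) : ℂ × ℝ × ℝ × ℝ × ℂ))
    have h1 : Continuous fun v : ℝ × ℝ × ℝ => fderiv ℝ R (zP (q w) v.1 v.2.1 v.2.2 w) eP := by
      rw [continuous_iff_continuousAt]
      intro v
      exact ContinuousAt.comp (f := fun v : ℝ × ℝ × ℝ => zP (q w) v.1 v.2.1 v.2.2 w)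
        (g := fun Q => fderiv ℝ R Q eP) (fd_contAt hD (hD.topU w hws _ _ _ _ (by simp)))
        hc.continuousAt
    exact h1.rpow_const fun _ => Or.inr hD.ee_pos.le
  have hGc' : Cont3 fun x y u => τ ^ ee * G x y u := continuous_const.mul hGc
  -- the pointwise estimate in the box
  have hbox : ∀ x ∈ Icc (0 : ℝ) (2 * Real.pi), ∀ y ∈ Icc (0 : ℝ) (2 * Real.pi),
      ∀ u ∈ Icc (0 : ℝ) (2 * Real.pi),
      |(-R (zP ((q w - τ : ℝ) : ℂ) x y u w)) ^ ee - τ ^ ee * G x y u| ≤ ε * τ ^ ee := by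
    intro x hx y hy u hu
    obtain ⟨ξ, hξ, h1⟩ := mv_top hPER hD hws (x := x) (y := y) (u := u) hτ (fun ξ hξ =>
      (hloc ξ hξ.1 (hξ.2.trans_lt hτa) w hw x hx y hy u hu).1)
    obtain ⟨-, h2, h3⟩ := hloc ξ hξ.1.le (hξ.2.trans hτa) w hw x hx y hy u hu
    have h4 : G x y u = (DR q R 0 w x y u) ^ ee := by
      simp only [hG, DR, sub_zero]
    rw [h1, Real.mul_rpow hτ.le h2.le, h4, ← mul_sub, abs_mul,
      abs_of_nonneg (Real.rpow_nonneg hτ.le _), mul_comm]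
    exact mul_le_mul_of_nonneg_right h3 (Real.rpow_nonneg hτ.le _)
  -- everywhere
  have hall : ∀ x y u,
      |(-R (zP ((q w - τ : ℝ) : ℂ) x y u w)) ^ ee - τ ^ ee * G x y u| ≤ ε * τ ^ ee := by
    intro x y u
    obtain ⟨i, hi⟩ := exists_shift x
    obtain ⟨j, hj⟩ := exists_shift y
    obtain ⟨l, hl⟩ := exists_shift u
    have h1 := hbox _ hi _ hj _ hl
    have hP1 : zP ((q w - τ : ℝ) : ℂ) x y u w ∈ U := W_sub hD (hD.inner w hws _ _ _ _ hr1 hr2)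
    have hP2 : zP (q w) x y u w ∈ U := hD.topU w hws _ _ _ _ (by simp)
    rw [← zP_kv hPER, hD.R_t _ hP1] at h1
    have h2 : G (x + 2 * Real.pi * i) (y + 2 * Real.pi * j) (u + 2 * Real.pi * l) = G x y u := by
      simp only [hG]
      rw [← zP_kv hPER, fderiv_tE hD hP2]
    rw [h2] at h1
    exact h1
  have h5 := hAVB.2.2.2.2 _ _ _ hF hGc' hall
  rw [hAVB.2.1] at h5
  have h6 : Nf ee q R w = av G := rfl
  have h7 : Uf ee R (q w - τ) w = av (fun x y u => (-R (zP ((q w - τ : ℝ) : ℂ) x y u w)) ^ ee) := rfl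
  rw [h6, h7, mul_comm (av G)]
  exact h5

end Pool.Agent.Helper98.AB
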