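import Pool.Agent.Helper98.AB.LIMU

/-! # Project AB, packet MVI -/

open MeasureTheory Set Filter Topology
open scoped ContDiff

noncomputable section

namespace Pool.Agent.Helper98.AB

open Pool.Agent.Helper24.AB Pool.Agent.Helper15.AB

theorem re_bd {V z : ℂ} {ρ : ℝ} (hz : ‖z‖ < ρ) (hρ : ‖V‖ * ρ ≤ 1 / 2) : |(V * z).re| ≤ 1 / 2 := by
  have h1 : |(V * z).re| ≤ ‖V * z‖ := Complex.abs_re_le_norm _
  rw [norm_mul] at h1
  have h2 : ‖V‖ * ‖z‖ ≤ ‖V‖ * ρ := mul_le_mul_of_nonneg_left hz.le (norm_nonneg _)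
  linarith

/-- the mean value inequality for `N g^ee` -/
theorem circ_ineq (hNSM : S_NSM) (hLIMU : S_LIMU) (hSUPM : S_SUPM) (hHCJ : S_HCJ) (hAVC : S_AVC)
    {ee a : ℝ} {q m : ℂ → ℝ} {W U : Set V4} {R : V4 → ℝ} (hD : IsDat ee a q m W U R) {w₀ : ℂ}
    {V : ℂ} {ρ : ℝ} (hρ : 0 < ρ) (hs : Metric.ball w₀ ρ ⊆ strip (a / 2))
    (hlap : ∀ w ∈ Metric.ball w₀ ρ, lapC q w = 0) (hV : ‖V‖ * ρ ≤ 1 / 2) {r : ℝ} (hr : 0 < r)
    (hrr : r < ρ / 2) :
    Real.circleAverage (fun w => Nf ee q R w * (1 + (V * (w - w₀)).re) ^ ee) w₀ r ≤ Nf ee q R w₀ := by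
  obtain ⟨hNs, hNp⟩ := hNSM ee a q m W U R hD
  obtain ⟨Q, hQ, hQre⟩ := hHCJ q w₀ ρ (hD.q_smooth.mono hs) hlap
  set N := Nf ee q R with hN
  set g : ℂ → ℝ := fun w => 1 + (V * (w - w₀)).re with hg
  have hgb : ∀ w ∈ Metric.ball w₀ ρ, 1 / 2 ≤ g w ∧ g w ≤ 3 / 2 := by
    intro w hw
    have h1 := re_bd (V := V) (z := w - w₀) (by rw [← dist_eq_norm]; exact hw) hV
    rw [abs_le] at h1
    constructor <;> simp only [hg] <;> linarith [h1.1, h1.2]
  set K : Set ℂ := Metric.closedBall w₀ (ρ / 2) with hK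
  have hKc : IsCompact K := isCompact_closedBall _ _
  have hKb : K ⊆ Metric.ball w₀ ρ := Metric.closedBall_subset_ball (by linarith)
  have hKs : K ⊆ strip (a / 2) := hKb.trans hs
  have hw₀K : w₀ ∈ K := Metric.mem_closedBall_self (by linarith)
  have hb2 : Metric.ball w₀ (ρ / 2) ⊆ K := Metric.ball_subset_closedBall
  have hsph : Metric.closedBall w₀ r ⊆ K := Metric.closedBall_subset_closedBall hrr.le
  obtain ⟨m₀, hm₀, hm⟩ : ∃ m₀ : ℝ, 0 < m₀ ∧ ∀ w ∈ K, m₀ ≤ m w := by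
    obtain ⟨w₁, hw₁, hmin⟩ := hKc.exists_isMinOn ⟨w₀, hw₀K⟩ (hD.m_cont.mono hKs)
    exact ⟨m w₁, hD.m_pos _ (hKs hw₁), fun w hw => hmin hw⟩
  apply le_of_forall_pos_le_add
  intro ε hε
  obtain ⟨τ₁, hτ₁, hτ⟩ := hLIMU ee a q m W U R hD K hKs hKc (ε / 3) (by positivity)
  set τ : ℝ := min τ₁ m₀ / 2 with hτdef
  have hmin : 0 < min τ₁ m₀ := lt_min hτ₁ hm₀
  have hτ0 : 0 < τ := by positivity
  have hτa : τ * (3 / 2) < τ₁ := by
    have := min_le_left τ₁ m₀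
    rw [hτdef]; linarith
  have hτb : τ * (3 / 2) < m₀ := by
    have := min_le_right τ₁ m₀
    rw [hτdef]; linarith
  set Z : ℂ → ℂ := fun w => Q w - τ * (1 + V * (w - w₀)) with hZ
  have hZd : DifferentiableOn ℂ Z (Metric.ball w₀ (ρ / 2)) := by
    refine (hQ.mono (hb2.trans hKb)).sub ?_
    fun_prop
  have hZre : ∀ w ∈ K, (Z w).re = q w - τ * g w := by
    intro w hw
    simp only [hZ, Complex.sub_re, hQre w (hKb hw), hg]
    rw [Complex.re_ofReal_mul, Complex.add_re, Complex.one_re]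
  have hτg : ∀ w ∈ K, 0 < τ * g w ∧ τ * g w < τ₁ ∧ τ * g w < m₀ := by
    intro w hw
    obtain ⟨h1, h2⟩ := hgb w (hKb hw)
    have h3 : τ * g w ≤ τ * (3 / 2) := mul_le_mul_of_nonneg_left h2 hτ0.le
    exact ⟨mul_pos hτ0 (by linarith), by linarith, by linarith⟩
  have hin : ∀ w ∈ K, q w - m w < (Z w).re ∧ (Z w).re < q w := by
    intro w hw
    rw [hZre w hw]
    obtain ⟨h1, -, h3⟩ := hτg w hw
    have := hm w hw
    constructor <;> linarith
  have h1 := hSUPM ee a q m W U R hD w₀ r (ρ / 2) Z hr hrr (hb2.trans hKs) hZd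
    fun w hw => hin w (hb2 hw)
  -- upper bound
  have hg0 : g w₀ = 1 := by simp [hg]
  have h2 : Uf ee R (Z w₀).re w₀ ≤ N w₀ * τ ^ ee + ε / 3 * τ ^ ee := by
    rw [hZre w₀ hw₀K, hg0, mul_one]
    have h3 := hτ τ hτ0 (by linarith) w₀ hw₀K
    rw [abs_le] at h3
    linarith [h3.2]
  -- lower bound
  have hlow : ∀ w ∈ K, N w * g w ^ ee * τ ^ ee - 2 * (ε / 3) * τ ^ ee ≤ Uf ee R (Z w).re w := by
    intro w hw
    obtain ⟨h3, h4, h5⟩ := hτg w hw
    obtain ⟨h6, h7⟩ := hgb w (hKb hw)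
    have h8 := hτ (τ * g w) h3 h4 w hw
    rw [← hZre w hw, Real.mul_rpow hτ0.le (by linarith), abs_le] at h8
    have h9 : g w ^ ee ≤ 2 := by
      calc g w ^ ee ≤ 2 ^ ee := Real.rpow_le_rpow (by linarith) (by linarith) hD.ee_pos.le
        _ ≤ 2 ^ (1 : ℝ) := Real.rpow_le_rpow_of_exponent_le (by norm_num) hD.ee_lt.le
        _ = 2 := Real.rpow_one _
    have h10 : 0 ≤ τ ^ ee := Real.rpow_nonneg hτ0.le _
    have h11 : ε / 3 * (τ ^ ee * g w ^ ee) ≤ 2 * (ε / 3) * τ ^ ee := by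
      have : ε / 3 * (τ ^ ee) * g w ^ ee ≤ ε / 3 * (τ ^ ee) * 2 :=
        mul_le_mul_of_nonneg_left h9 (by positivity)
      linarith
    have h12 : N w * (τ ^ ee * g w ^ ee) = N w * g w ^ ee * τ ^ ee := by ring
    linarith [h8.1]
  -- continuity
  have hgc : Continuous g := by
    simp only [hg]
    fun_prop
  have hfc : ContinuousOn (fun w => N w * g w ^ ee) K := by
    refine (hNs.continuousOn.mono hKs).mul ?_
    exact hgc.continuousOn.rpow_const fun w _ => Or.inr hD.ee_pos.le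
  have hUc : ContinuousOn (fun w => Uf ee R (Z w).re w) (Metric.closedBall w₀ r) := by
    have hF : ContinuousOn (fun v : ℂ × ℝ × ℝ × ℝ =>
        (-R (zP (((Z v.1).re : ℝ) : ℂ) v.2.1 v.2.2.1 v.2.2.2 v.1)) ^ ee)
        (Metric.closedBall w₀ r ×ˢ univ) := by
      have hZc : ContinuousOn Z (Metric.closedBall w₀ r) :=
        hZd.continuousOn.mono (Metric.closedBall_subset_ball hrr)
      have hc : ContinuousOn (fun v : ℂ × ℝ × ℝ × ℝ =>
          zP (((Z v.1).re : ℝ) : ℂ) v.2.1 v.2.2.1 v.2.2.2 v.1)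
          (Metric.closedBall w₀ r ×ˢ univ) := by
        refine zP_cont.comp_continuousOn (f := fun v : ℂ × ℝ × ℝ × ℝ =>
          (((((Z v.1).re : ℝ) : ℂ), v.2.1, v.2.2.1, v.2.2.2, v.1) : ℂ × ℝ × ℝ × ℝ × ℂ)) ?_
        refine ContinuousOn.prodMk ?_ (by fun_prop)
        have h3 : ContinuousOn (fun v : ℂ × ℝ × ℝ × ℝ => Z v.1) (Metric.closedBall w₀ r ×ˢ univ) :=
          hZc.comp continuousOn_fst fun v hv => hv.1
        exact Complex.continuous_ofReal.comp_continuousOn (Complex.continuous_re.comp_continuousOn h3)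
      have hR : ContinuousOn (fun v : ℂ × ℝ × ℝ × ℝ =>
          R (zP (((Z v.1).re : ℝ) : ℂ) v.2.1 v.2.2.1 v.2.2.2 v.1))
          (Metric.closedBall w₀ r ×ˢ univ) := by
        refine (R_cont hD).comp hc fun v hv => ?_
        have h1 := hsph hv.1
        exact W_sub hD (hD.inner _ (hKs h1) _ _ _ _ (by rw [Complex.ofReal_re]; exact (hin _ h1).1)
          (by rw [Complex.ofReal_re]; exact (hin _ h1).2))
      exact hR.neg.rpow_const fun _ _ => Or.inr hD.ee_pos.le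
    exact (hAVC (fun w x y u => (-R (zP (((Z w).re : ℝ) : ℂ) x y u w)) ^ ee) w₀ r hr.le hF).2.1
  have hUi : CircleIntegrable (fun w => Uf ee R (Z w).re w) w₀ r :=
    (hUc.mono Metric.sphere_subset_closedBall).circleIntegrable hr.le
  have hfi : CircleIntegrable (fun w => N w * g w ^ ee) w₀ r :=
    (hfc.mono (Metric.sphere_subset_closedBall.trans hsph)).circleIntegrable hr.le
  have hfi2 : CircleIntegrable (fun w => N w * g w ^ ee * τ ^ ee) w₀ r := by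
    refine ContinuousOn.circleIntegrable hr.le ?_
    exact (hfc.mono (Metric.sphere_subset_closedBall.trans hsph)).mul continuousOn_const
  have hci : CircleIntegrable (fun _ : ℂ => 2 * (ε / 3) * τ ^ ee) w₀ r :=
    continuousOn_const.circleIntegrable hr.le
  have h3 : Real.circleAverage (fun w => N w * g w ^ ee * τ ^ ee - 2 * (ε / 3) * τ ^ ee) w₀ r ≤
      Real.circleAverage (fun w => Uf ee R (Z w).re w) w₀ r := by
    apply Real.circleAverage_mono (hfi2.sub hci) hUi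
    intro w hw
    rw [abs_of_pos hr] at hw
    exact hlow w (hsph (Metric.sphere_subset_closedBall hw))
  have h4 : Real.circleAverage (fun w => N w * g w ^ ee * τ ^ ee - 2 * (ε / 3) * τ ^ ee) w₀ r =
      τ ^ ee * Real.circleAverage (fun w => N w * g w ^ ee) w₀ r - 2 * (ε / 3) * τ ^ ee := by
    rw [Real.circleAverage_fun_sub hfi2 hci, Real.circleAverage_const]
    congr 1
    have h5 : (fun w => N w * g w ^ ee * τ ^ ee) = τ ^ ee • fun w => N w * g w ^ ee := by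
      funext w
      simp only [Pi.smul_apply, smul_eq_mul]
      ring
    rw [h5, Real.circleAverage_smul, smul_eq_mul]
  rw [h4] at h3
  have hτp : 0 < τ ^ ee := Real.rpow_pos_of_pos hτ0 _
  have h5 : τ ^ ee * Real.circleAverage (fun w => N w * g w ^ ee) w₀ r ≤ τ ^ ee * (N w₀ + ε) := by
    have : τ ^ ee * (N w₀ + ε) = N w₀ * τ ^ ee + ε / 3 * τ ^ ee + 2 * (ε / 3) * τ ^ ee := by ring
    linarith
  exact le_of_mul_le_mul_left h5 hτp

theorem mvi (hNSM : S_NSM) (hLIMU : S_LIMU) (hSUPM : S_SUPM) (hHCJ : S_HCJ) (hTAYL : S_TAYL)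
    (hAVC : S_AVC) : S_MVI := by
  intro ee a q m W U R hD w₀ hw₀ hlap V
  obtain ⟨hNs, hNp⟩ := hNSM ee a q m W U R hD
  obtain ⟨ρ₁, hρ₁, h1⟩ := Metric.eventually_nhds_iff.1 hlap
  obtain ⟨ρ₂, hρ₂, h2⟩ := Metric.isOpen_iff.1 (strip_open (a / 2)) w₀ hw₀
  set ρ : ℝ := min (min ρ₁ ρ₂) (1 / (2 * (‖V‖ + 1))) with hρdef
  have hVp : 0 < ‖V‖ + 1 := by positivity
  have hρ : 0 < ρ := lt_min (lt_min hρ₁ hρ₂) (by positivity)
  have hs : Metric.ball w₀ ρ ⊆ strip (a / 2) :=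
    (Metric.ball_subset_ball ((min_le_left _ _).trans (min_le_right _ _))).trans h2
  have hl : ∀ w ∈ Metric.ball w₀ ρ, lapC q w = 0 := fun w hw =>
    h1 (lt_of_lt_of_le hw ((min_le_left _ _).trans (min_le_left _ _)))
  have hV : ‖V‖ * ρ ≤ 1 / 2 := by
    have h3 : ρ ≤ 1 / (2 * (‖V‖ + 1)) := min_le_right _ _
    calc ‖V‖ * ρ ≤ (‖V‖ + 1) * (1 / (2 * (‖V‖ + 1))) :=
          mul_le_mul (by linarith) h3 hρ.le hVp.le
      _ = 1 / 2 := by field_simp
  set f : ℂ → ℝ := fun w => Nf ee q R w * (1 + (V * (w - w₀)).re) ^ ee with hf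
  have hfc : ContDiffAt ℝ 2 f w₀ := by
    refine ((hNs.contDiffAt ((strip_open _).mem_nhds hw₀)).of_le
      (WithTop.coe_le_coe.2 (le_top : (2 : ℕ∞) ≤ ⊤))).mul ?_
    refine ContDiffAt.rpow_const_of_ne ?_ (by simp)
    have : ContDiff ℝ 2 fun w : ℂ => 1 + (V * (w - w₀)).re := by
      refine contDiff_const.add ?_
      exact Complex.reCLM.contDiff.comp (contDiff_const.mul (contDiff_id.sub contDiff_const))
    exact this.contDiffAt
  have hT := hTAYL f w₀ hfc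
  have hf0 : f w₀ = Nf ee q R w₀ := by simp [hf]
  have hle : ∀ᶠ r in 𝓝[>] (0 : ℝ), (Real.circleAverage f w₀ r - f w₀) / r ^ 2 ≤ 0 := by
    have h3 : Ioo (0 : ℝ) (ρ / 2) ∈ 𝓝[>] (0 : ℝ) := Ioo_mem_nhdsGT (by positivity)
    filter_upwards [h3] with r hr
    have h4 := circ_ineq hNSM hLIMU hSUPM hHCJ hAVC hD hρ hs hl hV hr.1 hr.2
    apply div_nonpos_of_nonpos_of_nonneg _ (sq_nonneg _)
    rw [hf0]
    linarith
  have h5 := le_of_tendsto hT hle
  linarith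

end Pool.Agent.Helper98.AB
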