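import Pool.Agent.Helper98.AB.DU

/-! # Project AB, packet SUPM -/

open MeasureTheory Set Filter Topology
open scoped ContDiff

noncomputable section

namespace Pool.Agent.Helper98.AB

open Pool.Agent.Helper24.AB Pool.Agent.Helper15.AB

/-- integer vectors -/
def kv (a b c : ℤ) : Fin 3 → ℤ := ![a, b, c]

theorem zP_kv (hPER : S_PER) (z : ℂ) (x y u : ℝ) (w : ℂ) (a b c : ℤ) :
    tE (kv a b c) (zP z x y u w) =
      zP z (x + 2 * Real.pi * a) (y + 2 * Real.pi * b) (u + 2 * Real.pi * c) w := by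
  rw [hPER.2.1]
  simp [kv]

/-- continuity and periodicity of `(-R)^ee` over a torus in `W` -/
theorem torus_cont {ee a : ℝ} {q m : ℂ → ℝ} {W U : Set V4} {R : V4 → ℝ} (hD : IsDat ee a q m W U R)
    {w z : ℂ} (hw : w ∈ strip (a / 2)) (h1 : q w - m w < z.re) (h2 : z.re < q w) :
    Cont3 (fun x y u => (-R (zP z x y u w)) ^ ee) := by
  unfold Cont3
  have hc : Continuous fun v : ℝ × ℝ × ℝ => zP z v.1 v.2.1 v.2.2 w :=
    zP_cont.comp (by fun_prop : Continuous fun v : ℝ × ℝ × ℝ =>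
      ((z, v.1, v.2.1, v.2.2, w) : ℂ × ℝ × ℝ × ℝ × ℂ))
  have hR : Continuous fun v : ℝ × ℝ × ℝ => R (zP z v.1 v.2.1 v.2.2 w) :=
    (R_cont hD).comp_continuous hc fun v => W_sub hD (hD.inner w hw z _ _ _ h1 h2)
  exact hR.neg.rpow_const fun _ => Or.inr hD.ee_pos.le

theorem torus_per (hPER : S_PER) {ee a : ℝ} {q m : ℂ → ℝ} {W U : Set V4} {R : V4 → ℝ}
    (hD : IsDat ee a q m W U R)
    {w z : ℂ} (hw : w ∈ strip (a / 2)) (h1 : q w - m w < z.re) (h2 : z.re < q w) :
    Per3 (fun x y u => (-R (zP z x y u w)) ^ ee) := by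
  intro x y u
  have hU : zP z x y u w ∈ U := W_sub hD (hD.inner w hw z x y u h1 h2)
  have e1 := zP_kv hPER z x y u w 1 0 0
  have e2 := zP_kv hPER z x y u w 0 1 0
  have e3 := zP_kv hPER z x y u w 0 0 1
  have f1 := hD.R_t _ hU (kv 1 0 0)
  have f2 := hD.R_t _ hU (kv 0 1 0)
  have f3 := hD.R_t _ hU (kv 0 0 1)
  rw [e1] at f1
  rw [e2] at f2
  rw [e3] at f3
  simp only [Int.cast_one, Int.cast_zero, mul_one, mul_zero, add_zero] at f1 f2 f3
  refine ⟨?_, ?_, ?_⟩
  · show (-R _) ^ ee = _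
    rw [f1]
  · show (-R _) ^ ee = _
    rw [f2]
  · show (-R _) ^ ee = _
    rw [f3]

/-- translation: the torus average at the height `z` depends only on `z.re`. -/
theorem av_Uf (hPER : S_PER) (hAVT : S_AVT) {ee a : ℝ} {q m : ℂ → ℝ} {W U : Set V4} {R : V4 → ℝ}
    (hD : IsDat ee a q m W U R)
    {w z : ℂ} (hw : w ∈ strip (a / 2)) (h1 : q w - m w < z.re) (h2 : z.re < q w) :
    av (fun x y u => (-R (zP z x y u w)) ^ ee) = Uf ee R z.re w := by
  have hc := torus_cont hD hw (z := (z.re : ℂ)) (by simpa using h1) (by simpa using h2)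
  have hp := torus_per hPER hD hw (z := (z.re : ℂ)) (by simpa using h1) (by simpa using h2)
  have h3 := (hAVT _ hc hp).1 (ph * z.im) z.im 0
  unfold Uf
  rw [← h3]
  congr 1
  funext x y u
  rw [hPER.2.2.1 z x y u w, add_zero]

theorem supm (hLAPC : S_LAPC) (hSMV : S_SMV) (hAVB : S_AVB) (hAVC : S_AVC) (hAVT : S_AVT)
    (hPER : S_PER) : S_SUPM := by
  intro ee a q m W U R hD w₀ r r' Z hr hrr hsub hZ hin
  have hball : Metric.closedBall w₀ r ⊆ Metric.ball w₀ r' := Metric.closedBall_subset_ball hrr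
  set F : ℂ → ℝ → ℝ → ℝ → ℝ := fun w x y u => (-R (zP (Z w) x y u w)) ^ ee with hF
  have hZc : ContinuousOn Z (Metric.ball w₀ r') := hZ.continuousOn
  -- joint continuity
  have hFc : ContinuousOn (fun v : ℂ × ℝ × ℝ × ℝ => F v.1 v.2.1 v.2.2.1 v.2.2.2)
      (Metric.closedBall w₀ r ×ˢ univ) := by
    have hc : ContinuousOn (fun v : ℂ × ℝ × ℝ × ℝ => zP (Z v.1) v.2.1 v.2.2.1 v.2.2.2 v.1)
        (Metric.closedBall w₀ r ×ˢ univ) := by
      refine zP_cont.comp_continuousOn (f := fun v : ℂ × ℝ × ℝ × ℝ =>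
        ((Z v.1, v.2.1, v.2.2.1, v.2.2.2, v.1) : ℂ × ℝ × ℝ × ℝ × ℂ)) ?_
      refine ContinuousOn.prodMk ?_ (by fun_prop)
      exact hZc.comp continuousOn_fst fun v hv => hball hv.1
    have hR : ContinuousOn (fun v : ℂ × ℝ × ℝ × ℝ => R (zP (Z v.1) v.2.1 v.2.2.1 v.2.2.2 v.1))
        (Metric.closedBall w₀ r ×ˢ univ) := by
      refine (R_cont hD).comp hc fun v hv => ?_
      have h1 := hball hv.1
      exact W_sub hD (hD.inner _ (hsub h1) _ _ _ _ (hin _ h1).1 (hin _ h1).2)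
    exact hR.neg.rpow_const fun _ _ => Or.inr hD.ee_pos.le
  obtain ⟨hA1, -, hA3⟩ := hAVC F w₀ r hr.le hFc
  have hw₀ : w₀ ∈ Metric.ball w₀ r' := Metric.mem_ball_self (hr.trans hrr)
  -- the pointwise inequality
  have hpt : ∀ x y u, Real.circleAverage (fun w => F w x y u) w₀ r ≤ F w₀ x y u := by
    intro x y u
    set γ : ℂ → V4 := fun w => zP (Z w) x y u w with hγ
    have hγd : DifferentiableOn ℂ γ (Metric.ball w₀ r') := by
      rw [differentiableOn_pi]
      intro i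
      fin_cases i
      · simp only [hγ, zP]
        simp
        exact (differentiableOn_const _).mul hZ
      · simp only [hγ, zP]
        simp
        exact hZ
      · simp only [hγ, zP]
        simp
      · simp only [hγ, zP]
        simp
        exact differentiableOn_id
    have hγW : ∀ w ∈ Metric.ball w₀ r', γ w ∈ W := fun w hw =>
      hD.inner _ (hsub hw) _ _ _ _ (hin _ hw).1 (hin _ hw).2
    set u₀ : V4 → ℝ := fun P => -((-R P) ^ ee) with hu₀
    have hu₀c : ∀ P ∈ W, ContDiffAt ℝ 2 u₀ P := fun P hP =>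
      (pow_contDiffAt hD hP).of_le (WithTop.coe_le_coe.2 (le_top : (2 : ℕ∞) ≤ ⊤))
    have hγc : ContDiffOn ℝ 2 γ (Metric.ball w₀ r') :=
      (hγd.contDiffOn Metric.isOpen_ball (n := 2)).restrict_scalars ℝ
    have hfc : ContDiffOn ℝ 2 (fun w => u₀ (γ w)) (Metric.ball w₀ r') := by
      intro w hw
      exact (hu₀c _ (hγW w hw)).comp_contDiffWithinAt w (hγc w hw)
    have hlap : ∀ w ∈ Metric.ball w₀ r', 0 ≤ lapC (fun w => u₀ (γ w)) w := by
      intro w hw
      rw [hLAPC _ γ u₀ w Metric.isOpen_ball hγd hw (hu₀c _ (hγW w hw))]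
      exact hD.psh _ (hγW w hw) _
    have h1 := hSMV (fun w => u₀ (γ w)) _ w₀ r Metric.isOpen_ball hfc hlap hr.le hball
    have h2 : Real.circleAverage (fun w => u₀ (γ w)) w₀ r =
        -Real.circleAverage (fun w => F w x y u) w₀ r := by
      have : (fun w => u₀ (γ w)) = (-1 : ℝ) • fun w => F w x y u := by
        funext w
        simp [hu₀, hγ, hF]
      rw [this, Real.circleAverage_smul]
      simp
    rw [h2] at h1
    have h3 : u₀ (γ w₀) = -F w₀ x y u := rfl
    rw [h3] at h1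
    linarith
  have hF0 : Cont3 (F w₀) := torus_cont hD (hsub hw₀) (hin _ hw₀).1 (hin _ hw₀).2
  have h4 := hAVB.2.2.1 _ _ hA1 hF0 hpt
  rw [hA3, av_Uf hPER hAVT hD (hsub hw₀) (hin _ hw₀).1 (hin _ hw₀).2] at h4
  have h5 : Real.circleAverage (fun w => av (F w)) w₀ r =
      Real.circleAverage (fun w => Uf ee R (Z w).re w) w₀ r := by
    apply Real.circleAverage_congr_sphere
    intro w hw
    rw [abs_of_pos hr] at hw
    have hw' := hball (Metric.sphere_subset_closedBall hw)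
    exact av_Uf hPER hAVT hD (hsub hw') (hin _ hw').1 (hin _ hw').2
  rw [← h5]
  exact h4

end Pool.Agent.Helper98.AB
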