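import Pool.Agent.Helper15.AB.GoalsE

/-! # Project AB, packet PRF -/

open MeasureTheory Set Filter Topology
open scoped ContDiff

noncomputable section

namespace Pool.Agent.Helper98.AB

open Pool.Agent.Helper24.AB Pool.Agent.Helper15.AB

theorem sqrt5_bd : Real.sqrt 5 < 2.2361 := by
  rw [Real.sqrt_lt' (by norm_num)]
  norm_num

theorem kap_pos' : 0 < kap := by
  unfold kap lam
  apply div_pos _ (by positivity)
  apply Real.log_pos
  have : (0 : ℝ) < Real.sqrt 5 := Real.sqrt_pos.2 (by norm_num)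
  linarith

theorem exp_099 : 2.6181 < Real.exp 0.99 := by
  have h1 : Real.exp 0.99 = Real.exp 1 * Real.exp (-0.01) := by
    rw [← Real.exp_add]
    norm_num
  have h2 : (0.99 : ℝ) ≤ Real.exp (-0.01) := by
    have := Real.add_one_le_exp (-0.01)
    linarith
  have h3 := Real.exp_one_gt_d9
  rw [h1]
  calc (2.6181 : ℝ) < 2.7182818283 * 0.99 := by norm_num
    _ ≤ Real.exp 1 * Real.exp (-0.01) := by
        apply mul_le_mul h3.le h2 (by norm_num) (Real.exp_pos _).le

theorem kap_sq_le : kap ^ 2 ≤ 1 / 40 := by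
  have h1 : Real.log lam ≤ 0.99 := by
    rw [Real.log_le_iff_le_exp (by unfold lam; positivity)]
    have h2 := sqrt5_bd
    have h3 := exp_099
    unfold lam
    linarith
  have h0 : 0 ≤ Real.log lam := by
    apply Real.log_nonneg
    unfold lam
    have := Real.sqrt_nonneg 5
    linarith
  unfold kap
  rw [div_pow, div_le_iff₀ (by positivity)]
  have h4 := Real.pi_gt_d2
  nlinarith

/-- explicit derivatives near the edge -/
theorem edge_deriv {a A : ℝ} {s : ℝ → ℝ} (hs : IsProfile a A s) {x : ℝ} (hx : |x| < a)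
    (hx2 : 19 / 20 * a < |x|) : s x = 2 * A * Real.sqrt (a ^ 2 - x ^ 2) / a ∧
    deriv s x = -(2 * A * x) / (a * Real.sqrt (a ^ 2 - x ^ 2)) ∧
    deriv (deriv s) x = -(2 * A * a) / ((a ^ 2 - x ^ 2) * Real.sqrt (a ^ 2 - x ^ 2)) := by
  have ha := hs.a_pos
  have ho : IsOpen {y : ℝ | |y| < a ∧ 19 / 20 * a < |y|} := by
    have o1 : IsOpen {y : ℝ | |y| < a} := isOpen_lt (by fun_prop) continuous_const
    have o2 : IsOpen {y : ℝ | 19 / 20 * a < |y|} := isOpen_lt continuous_const (by fun_prop)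
    exact o1.inter o2
  have hpos : ∀ y : ℝ, |y| < a → 0 < a ^ 2 - y ^ 2 := by
    intro y hy
    have := sq_lt_sq' (by linarith [(abs_lt.1 hy).1]) (abs_lt.1 hy).2
    linarith
  have h1 : ∀ y ∈ {y : ℝ | |y| < a ∧ 19 / 20 * a < |y|}, s y = 2 * A * Real.sqrt (a ^ 2 - y ^ 2) / a :=
    fun y hy => hs.edge y hy.2.le hy.1
  have hsq : ∀ y : ℝ, |y| < a → HasDerivAt (fun y => Real.sqrt (a ^ 2 - y ^ 2))
      (-y / Real.sqrt (a ^ 2 - y ^ 2)) y := by
    intro y hy
    have h2 : HasDerivAt (fun y : ℝ => a ^ 2 - y ^ 2) (-(2 * y)) y := by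
      simpa using (hasDerivAt_pow 2 y).const_sub (a ^ 2)
    have h3 := h2.sqrt (hpos y hy).ne'
    convert h3 using 1
    have h4 := (Real.sqrt_pos.2 (hpos y hy)).ne'
    field_simp
  have hd1 : ∀ y ∈ {y : ℝ | |y| < a ∧ 19 / 20 * a < |y|},
      deriv s y = -(2 * A * y) / (a * Real.sqrt (a ^ 2 - y ^ 2)) := by
    intro y hy
    have h2 : s =ᶠ[𝓝 y] fun y => 2 * A * Real.sqrt (a ^ 2 - y ^ 2) / a := by
      filter_upwards [ho.mem_nhds hy] with z hz
      exact h1 z hz
    rw [h2.deriv_eq]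
    have h3 := ((hsq y hy.1).const_mul (2 * A)).div_const a
    rw [h3.deriv]
    have h4 := (Real.sqrt_pos.2 (hpos y hy.1)).ne'
    field_simp
  have hm : x ∈ {y : ℝ | |y| < a ∧ 19 / 20 * a < |y|} := ⟨hx, hx2⟩
  refine ⟨h1 x hm, hd1 x hm, ?_⟩
  have h2 : deriv s =ᶠ[𝓝 x] fun y => -(2 * A * y) / (a * Real.sqrt (a ^ 2 - y ^ 2)) := by
    filter_upwards [ho.mem_nhds hm] with z hz
    exact hd1 z hz
  rw [h2.deriv_eq]
  have hs0 := Real.sqrt_pos.2 (hpos x hx)
  have h3 : HasDerivAt (fun y : ℝ => -(2 * A * y)) (-(2 * A)) x := by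
    have h := (hasDerivAt_id' x).const_mul (-(2 * A))
    rw [mul_one] at h
    exact h.congr_of_eventuallyEq (Eventually.of_forall fun y => by ring)
  have h4 := h3.fun_div ((hsq x hx).const_mul a) (mul_pos ha hs0).ne'
  rw [h4.deriv]
  have h5 : Real.sqrt (a ^ 2 - x ^ 2) ^ 2 = a ^ 2 - x ^ 2 := Real.sq_sqrt (hpos x hx).le
  set t := Real.sqrt (a ^ 2 - x ^ 2) with ht
  rw [← h5]
  have ht0 := hs0.ne'
  have h7 : a ^ 2 = t ^ 2 + x ^ 2 := by linarith
  field_simp
  rw [h7]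
  ring

theorem prf : S_PRF := by
  refine ⟨kap_pos', kap_sq_le, ?_⟩
  intro a A s hs x hx
  have ha := hs.a_pos
  have ha2 := hs.a_le
  have hA := hs.A_pos
  have hk := kap_sq_le
  have hk0 : 0 ≤ kap ^ 2 := sq_nonneg _
  have hxa : |x| < a := abs_lt.2 hx
  have he : 0 < a ^ 2 - x ^ 2 := by
    have := sq_lt_sq' (by linarith [hx.1]) hx.2
    linarith
  have hs0 := hs.pos x hx
  set e := a ^ 2 - x ^ 2 with hedef
  have hea : e ≤ a ^ 2 := by
    have := sq_nonneg x
    linarith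
  have ha4 : a ^ 2 ≤ 1 / 4 := by nlinarith
  have hke : kap ^ 2 * e ≤ 1 / 160 := by
    calc kap ^ 2 * e ≤ 1 / 40 * (1 / 4) := mul_le_mul hk (hea.trans ha4) he.le (by norm_num)
      _ = 1 / 160 := by norm_num
  have hke0 : 0 ≤ kap ^ 2 * e := by positivity
  by_cases hx2 : |x| ≤ 19 / 20 * a
  · have hAs := hs.ge_mid x hx2
    have h1 := hs.k1 x hx
    have h2 := hs.s' x hx
    have h3 := hs.s'sign x hx
    set s1 := deriv s x
    set S2 := deriv (deriv s) x
    rw [le_div_iff₀ he] at h2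
    -- e s1^2 + 2 x s s1 ≤ 0
    have h4 : e * s1 ^ 2 + 2 * (x * s1) * s x ≤ 0 := by
      have h5 : e * s1 ^ 2 ≤ (21 / 20 * s x * |x|) * |s1| := by
        have : e * s1 ^ 2 = (|s1| * e) * |s1| := by
          rw [← sq_abs s1]
          ring
        rw [this]
        exact mul_le_mul_of_nonneg_right h2 (abs_nonneg _)
      have h6 : x * s1 = -(|x| * |s1|) := by
        rw [← abs_mul, abs_of_nonpos h3]
        ring
      rw [h6]
      have h7 : 0 ≤ |x| * |s1| * s x := by positivity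
      nlinarith
    constructor
    · unfold m1
      rw [← hedef]
      have h5 : 4 * e * s x * S2 ≤ -(4 * (kap ^ 2 * e) * s x * (s x + A)) := by
        have h6 : S2 ≤ -(kap ^ 2 * s x + kap ^ 2 * A) := by linarith
        have h7 : 4 * e * s x * S2 ≤ 4 * e * s x * (-(kap ^ 2 * s x + kap ^ 2 * A)) :=
          mul_le_mul_of_nonneg_left h6 (by positivity)
        calc _ ≤ _ := h7
          _ = _ := by ring
      have h6 : -4 * s x ^ 2 + 4 * e * (s1 ^ 2 + s x * S2) + 8 * x * s x * s1 +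
          24 * kap ^ 2 * s x ^ 2 * e + 6 * kap ^ 2 * A * s x * e =
          -4 * s x ^ 2 + 4 * (e * s1 ^ 2 + 2 * (x * s1) * s x) + 4 * e * s x * S2 +
          24 * (kap ^ 2 * e) * s x ^ 2 + 6 * (kap ^ 2 * e) * (A * s x) := by ring
      rw [h6]
      have h7 : A ≤ 2 * s x := by linarith
      have h8 : (kap ^ 2 * e) * s x ^ 2 ≤ 1 / 160 * s x ^ 2 := mul_le_mul_of_nonneg_right hke (sq_nonneg _)
      have h9 : (kap ^ 2 * e) * (A * s x) ≤ 1 / 160 * (A * s x) :=
        mul_le_mul_of_nonneg_right hke (by positivity)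
      have h10 : A * s x ≤ 2 * s x ^ 2 := by nlinarith
      have h11 : A ^ 2 ≤ 4 * s x ^ 2 := by nlinarith
      nlinarith
    · have h5 : A / s x ≤ 2 := by
        rw [div_le_iff₀ hs0]
        linarith
      have h6 : 2 * kap ^ 2 * A * e ^ 2 / s x = 2 * (kap ^ 2 * e) * e * (A / s x) := by
        field_simp
      rw [h6]
      have h7 : 2 * (kap ^ 2 * e) * e * (A / s x) ≤ 2 * (kap ^ 2 * e) * e * 2 :=
        mul_le_mul_of_nonneg_left h5 (by positivity)
      have h8 : (kap ^ 2 * e) * e ≤ 1 / 160 * e := mul_le_mul_of_nonneg_right hke he.le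
      nlinarith
  · rw [not_le] at hx2
    obtain ⟨e1, e2, e3⟩ := edge_deriv hs hxa hx2
    rw [← hedef] at e1 e2 e3
    set t := Real.sqrt e with ht
    have ht0 : 0 < t := Real.sqrt_pos.2 he
    have ht2 : t ^ 2 = e := Real.sq_sqrt he.le
    have hta : t ≤ a := by
      rw [ht]
      exact Real.sqrt_le_iff.2 ⟨ha.le, hea⟩
    have hx2' : x ^ 2 = a ^ 2 - t ^ 2 := by rw [ht2]; ring
    constructor
    · unfold m1
      rw [← hedef, e1, e2, e3, ← ht2]
      have h1 : -4 * (2 * A * t / a) ^ 2 + 4 * t ^ 2 * ((-(2 * A * x) / (a * t)) ^ 2 +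
          2 * A * t / a * (-(2 * A * a) / (t ^ 2 * t))) + 8 * x * (2 * A * t / a) *
          (-(2 * A * x) / (a * t)) = -32 * A ^ 2 := by
        field_simp
        rw [hx2']
        ring
      rw [h1]
      have h2 : 2 * A * t / a ≤ 2 * A := by
        rw [div_le_iff₀ ha]
        nlinarith
      have h20 : 0 ≤ 2 * A * t / a := by positivity
      have h3 : (2 * A * t / a) ^ 2 ≤ 4 * A ^ 2 := by nlinarith
      have h4 : (kap ^ 2 * e) * (2 * A * t / a) ^ 2 ≤ 1 / 160 * (4 * A ^ 2) :=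
        mul_le_mul hke h3 (sq_nonneg _) (by norm_num)
      have h5 : (kap ^ 2 * e) * (A * (2 * A * t / a)) ≤ 1 / 160 * (A * (2 * A)) :=
        mul_le_mul hke (mul_le_mul_of_nonneg_left h2 hA.le) (by positivity) (by norm_num)
      rw [ht2]
      nlinarith
    · rw [e1]
      have h1 : 2 * kap ^ 2 * A * e ^ 2 / (2 * A * t / a) = (kap ^ 2 * e) * (a * t) := by
        rw [← ht2]
        field_simp
      rw [h1]
      have h2 : (kap ^ 2 * e) * (a * t) ≤ 1 / 160 * (a * a) :=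
        mul_le_mul hke (mul_le_mul_of_nonneg_left hta ha.le) (by positivity) (by norm_num)
      have h8 : (kap ^ 2 * e) * e ≤ 1 / 160 * e := mul_le_mul_of_nonneg_right hke he.le
      nlinarith

end Pool.Agent.Helper98.AB
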