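import Pool.Agent.Helper98.AB.LF
import Pool.Agent.Helper98.AB.XI
import Pool.Agent.Helper98.AB.PRF

/-! # Project AB, packet LEV1 -/

open MeasureTheory Set Filter Topology
open scoped ContDiff

noncomputable section

namespace Pool.Agent.Helper98.AB

open Pool.Agent.Helper24.AB Pool.Agent.Helper15.AB

theorem lapC_lin {f g : ℂ → ℝ} {c : ℝ} {w : ℂ} (hf : ContDiffAt ℝ ∞ f w) (hg : ContDiffAt ℝ ∞ g w) :
    lapC (fun w => f w - c * g w) w = lapC f w - c * lapC g w := by
  have hev : ∀ h : ℂ → ℝ, ContDiffAt ℝ ∞ h w → ∀ᶠ z in 𝓝 w, DifferentiableAt ℝ h z := by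
    intro h hh
    have h1 : ContDiffAt ℝ 1 h w := hh.of_le (WithTop.coe_le_coe.2 (le_top : (1 : ℕ∞) ≤ ⊤))
    exact (h1.eventually (by simp)).mono fun z hz => hz.differentiableAt (by simp)
  have hdir : ∀ (e : ℂ), (fun z => fderiv ℝ (fun w => f w - c * g w) z e) =ᶠ[𝓝 w]
      fun z => fderiv ℝ f z e - c * fderiv ℝ g z e := by
    intro e
    filter_upwards [hev f hf, hev g hg] with z h1 h2
    rw [fderiv_fun_sub h1 (h2.const_mul c), fderiv_const_mul h2]
    simp
  have hd2 : ∀ h : ℂ → ℝ, ContDiffAt ℝ ∞ h w → ∀ (e : ℂ),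
      DifferentiableAt ℝ (fun z => fderiv ℝ h z e) w := by
    intro h hh e
    have h1 : ContDiffAt ℝ ∞ (fderiv ℝ h) w := hh.fderiv_right (m := ∞) (by simp)
    exact (h1.clm_apply contDiffAt_const).differentiableAt (by simp)
  have h3 : ∀ e : ℂ, fderiv ℝ (fun z => fderiv ℝ (fun w => f w - c * g w) z e) w e =
      fderiv ℝ (fun z => fderiv ℝ f z e) w e - c * fderiv ℝ (fun z => fderiv ℝ g z e) w e := by
    intro e
    rw [(hdir e).fderiv_eq, fderiv_fun_sub (hd2 f hf e) ((hd2 g hg e).const_mul c),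
      fderiv_const_mul (hd2 g hg e)]
    simp
  show fderiv ℝ (fun z => fderiv ℝ (fun w => f w - c * g w) z 1) w 1 +
    fderiv ℝ (fun z => fderiv ℝ (fun w => f w - c * g w) z Complex.I) w Complex.I = _
  rw [h3, h3]
  show _ = fderiv ℝ (fun z => fderiv ℝ f z 1) w 1 +
    fderiv ℝ (fun z => fderiv ℝ f z Complex.I) w Complex.I - c * (fderiv ℝ (fun z => fderiv ℝ g z 1) w 1 +
    fderiv ℝ (fun z => fderiv ℝ g z Complex.I) w Complex.I)
  ring

/-- the real part of a coordinate -/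
def reP (i : Fin 4) : V4 →L[ℝ] ℝ :=
  Complex.reCLM.comp (ContinuousLinearMap.proj (R := ℝ) (φ := fun _ : Fin 4 => ℂ) i)

theorem reP_apply (i : Fin 4) (Q : V4) : reP i Q = (Q i).re := rfl

/-- the functional `α x₊ + α' x₋ + l x₀` -/
def lin (α α' l : ℝ) : V4 →L[ℝ] ℝ :=
  (α / Real.sqrt 5) • (reP 0 - ph' • reP 1) + (α' / Real.sqrt 5) • (ph • reP 1 - reP 0) + l • reP 2

theorem lin_apply (α α' l : ℝ) (Q : V4) : lin α α' l Q = α * xp Q + α' * xm Q + l * x0 Q := by
  unfold lin xp xm x0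
  simp [reP_apply]
  ring

theorem lev1 (hATL : S_ATL) (hRSM : S_RSM) (hLVW : S_LVW) (hBARL : S_BARL) (hSUPH : S_SUPH)
    (hLF : S_LF) (hLH0 : S_LH0) : S_LEV1 := by
  intro a A δ₀ ρ₀ s p B hs hp hδ P hP hr0 ξ hξ hiξ
  have hA := hs.A_pos
  have ha := hs.a_pos
  obtain ⟨-, hAp, -, -⟩ := hATL a A s hs
  obtain ⟨hrs, -, -⟩ := hRSM a A s p hs hp.smooth
  obtain ⟨hS1, hS2⟩ := hSUPH a A s p hs
  have hAt := hAp (P 3).re
  have he := e_pos hP
  set t : ℝ := (P 3).im with ht
  set u : ℝ := 2 * (ypf p P - A) / Atl a A s (P 3).re with hu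
  set v : ℝ := 2 * ymf P / (4 * A ^ 2) with hv
  set l : ℝ := 2 * x0 P / (4 * A ^ 2) with hl
  set α : ℝ := u * Real.exp (-(kap * t)) with hα
  set α' : ℝ := v * Real.exp (kap * t) with hα'
  have huf : uf α t = u := by
    unfold uf
    rw [hα, mul_assoc, ← Real.exp_add, neg_add_cancel, Real.exp_zero, mul_one]
  have hvf : vf α' t = v := by
    unfold vf
    rw [hα', mul_assoc, ← Real.exp_add, add_neg_cancel, Real.exp_zero, mul_one]
  have hE1 : 0 < Real.exp (-(kap * t)) := Real.exp_pos _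
  have hE2 : 0 < Real.exp (kap * t) := Real.exp_pos _
  have hne : α ≠ 0 ∨ α' ≠ 0 ∨ l ≠ 0 := by
    by_contra h
    push Not at h
    obtain ⟨h1, h2, h3⟩ := h
    have h4 : u = 0 := by
      rcases mul_eq_zero.1 h1 with h | h
      · exact h
      · exact absurd h hE1.ne'
    have h5 : v = 0 := by
      rcases mul_eq_zero.1 h2 with h | h
      · exact h
      · exact absurd h hE2.ne'
    have h6 : ypf p P - A = 0 := by
      rw [hu, div_eq_zero_iff] at h4
      rcases h4 with h | h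
      · linarith
      · exact absurd h hAt.ne'
    have hA4 : (4 * A ^ 2) ≠ 0 := by positivity
    have h7 : ymf P = 0 := by
      rw [hv, div_eq_zero_iff] at h5
      rcases h5 with h | h
      · linarith
      · exact absurd h hA4
    have h8 : x0 P = 0 := by
      rw [hl, div_eq_zero_iff] at h3
      rcases h3 with h | h
      · linarith
      · exact absurd h hA4
    unfold rfun at hr0
    rw [h6, h7, h8] at hr0
    simp at hr0
    linarith
  have hw : P 3 ∈ strip a := hP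
  obtain ⟨hFp, hHs, -⟩ := hLF a A s hs α α' l hne (P 3) hw
  have ho : IsOpen (strip a) := by
    unfold strip
    exact isOpen_lt (by fun_prop) continuous_const
  have ho2 : IsOpen (strip (3 * a / 2)) := by
    unfold strip
    exact isOpen_lt (by fun_prop) continuous_const
  have hw2 : P 3 ∈ strip (3 * a / 2) := by
    show |(P 3).re| < 3 * a / 2
    linarith
  have hHat : ContDiffAt ℝ ∞ (H0f a A s α α' l) (P 3) := hHs.contDiffAt (ho.mem_nhds hw)
  have hpat : ContDiffAt ℝ ∞ p (P 3) := hp.smooth.contDiffAt (ho2.mem_nhds hw2)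
  set f : ℂ → ℝ := fun w => H0f a A s α α' l w - α * p w with hf
  have hfat : ContDiffAt ℝ ∞ f (P 3) := hHat.sub (contDiffAt_const.mul hpat)
  have hf2 : ContDiffAt ℝ 2 f (P 3) := hfat.of_le (WithTop.coe_le_coe.2 (le_top : (2 : ℕ∞) ≤ ⊤))
  have hproj : ContDiffAt ℝ 2 (fun Q : V4 => Q 3) P := (contDiff_apply ℝ ℂ 3).contDiffAt
  have hfQ : ContDiffAt ℝ 2 (fun Q : V4 => f (Q 3)) P :=
    ContDiffAt.comp (g := f) (f := fun Q : V4 => Q 3) P hf2 hproj
  set r₁ : V4 → ℝ := fun Q => lin α α' l Q - f (Q 3) with hr₁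
  have hr₁c : ContDiffAt ℝ 2 r₁ P := (lin α α' l).contDiff.contDiffAt.sub hfQ
  have hDo : IsOpen {P : V4 | |(P 3).re| < 3 * a / 2} := isOpen_lt (by fun_prop) continuous_const
  have hDo' : IsOpen {P : V4 | |(P 3).re| < a} := isOpen_lt (by fun_prop) continuous_const
  have hrc : ContDiffAt ℝ 2 (rfun a A s p) P :=
    (hrs.contDiffAt (hDo.mem_nhds hw2)).of_le (WithTop.coe_le_coe.2 (le_top : (2 : ℕ∞) ≤ ⊤))
  have hr₁0 : r₁ P = 0 := by
    have h1 := hS2 P hP hr0 α α' l huf hvf hl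
    simp only [hr₁, hf]
    rw [lin_apply, h1, sub_self]
  -- derivative in the X directions
  have hline : ∀ N : V4, N 3 = 0 → ∀ τ : ℝ, (P + τ • N) 3 = P 3 := by
    intro N hN τ
    simp [hN]
  have hDr : ∀ N : V4, N 3 = 0 → fderiv ℝ (rfun a A s p) P N = lin α α' l N := by
    intro N hN
    have h1 : HasFDerivAt (rfun a A s p) (fderiv ℝ (rfun a A s p) P) (P + (0 : ℝ) • N) := by
      rw [zero_smul, add_zero]
      exact (hrc.differentiableAt (by simp)).hasFDerivAt
    have h2 : HasDerivAt (fun τ : ℝ => P + τ • N) N 0 := by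
      simpa using ((hasDerivAt_id' (0 : ℝ)).smul_const N).const_add P
    have h3 : HasDerivAt (fun τ : ℝ => rfun a A s p (P + τ • N)) (fderiv ℝ (rfun a A s p) P N) 0 :=
      HasFDerivAt.comp_hasDerivAt (l := rfun a A s p) (f := fun τ : ℝ => P + τ • N) (0 : ℝ) h1 h2
    have hxp : ∀ τ : ℝ, xp (P + τ • N) = xp P + τ * xp N := by
      intro τ
      unfold xp
      simp
      ring
    have hxm : ∀ τ : ℝ, xm (P + τ • N) = xm P + τ * xm N := by
      intro τ
      unfold xm
      simp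
      ring
    have hx0 : ∀ τ : ℝ, x0 (P + τ • N) = x0 P + τ * x0 N := by
      intro τ
      unfold x0
      simp
    have h4 : (fun τ : ℝ => rfun a A s p (P + τ • N)) = fun τ : ℝ =>
        (ypf p P - A + τ * (Real.exp (-(kap * t)) * xp N)) ^ 2 / Atl a A s (P 3).re +
        ((ymf P + τ * (Real.exp (kap * t) * xm N)) ^ 2 + (x0 P + τ * x0 N) ^ 2) / (4 * A ^ 2) -
        (a ^ 2 - (P 3).re ^ 2) := by
      funext τ
      unfold rfun ypf ymf
      rw [hline N hN τ, hxp, hxm, hx0]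
      ring
    have h5 : ∀ b c : ℝ, HasDerivAt (fun τ : ℝ => (b + τ * c) ^ 2) (2 * b * c) 0 := by
      intro b c
      have h6 : HasDerivAt (fun τ : ℝ => b + τ * c) c 0 := by
        simpa using ((hasDerivAt_id' (0 : ℝ)).mul_const c).const_add b
      have h7 := h6.fun_pow 2
      refine h7.congr_deriv ?_
      simp
    have h6 := (((h5 (ypf p P - A) (Real.exp (-(kap * t)) * xp N)).div_const
      (Atl a A s (P 3).re)).fun_add (((h5 (ymf P) (Real.exp (kap * t) * xm N)).fun_add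
      (h5 (x0 P) (x0 N))).div_const (4 * A ^ 2))).sub_const (a ^ 2 - (P 3).re ^ 2)
    rw [h4] at h3
    have h7 := h3.unique h6
    rw [h7, lin_apply, hα, hα', hu, hv, hl]
    field_simp
    ring
  have hDr₁ : ∀ N : V4, N 3 = 0 → fderiv ℝ r₁ P N = lin α α' l N := by
    intro N hN
    have h1 : HasFDerivAt r₁ (fderiv ℝ r₁ P) (P + (0 : ℝ) • N) := by
      rw [zero_smul, add_zero]
      exact (hr₁c.differentiableAt (by simp)).hasFDerivAt
    have h2 : HasDerivAt (fun τ : ℝ => P + τ • N) N 0 := by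
      simpa using ((hasDerivAt_id' (0 : ℝ)).smul_const N).const_add P
    have h3 : HasDerivAt (fun τ : ℝ => r₁ (P + τ • N)) (fderiv ℝ r₁ P N) 0 :=
      HasFDerivAt.comp_hasDerivAt (l := r₁) (f := fun τ : ℝ => P + τ • N) (0 : ℝ) h1 h2
    have h4 : (fun τ : ℝ => r₁ (P + τ • N)) = fun τ : ℝ => τ * lin α α' l N + (lin α α' l P - f (P 3)) := by
      funext τ
      simp only [hr₁]
      rw [hline N hN τ, map_add, map_smul, smul_eq_mul]
      ring
    rw [h4] at h3
    have h5 : HasDerivAt (fun τ : ℝ => τ * lin α α' l N + (lin α α' l P - f (P 3))) (lin α α' l N) 0 := by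
      simpa using ((hasDerivAt_id' (0 : ℝ)).mul_const (lin α α' l N)).add_const
        (lin α α' l P - f (P 3))
    exact h3.unique h5
  -- the vector N
  set N : V4 := ![((ph * α + ph' * α' : ℝ) : ℂ), ((α + α' : ℝ) : ℂ), ((l : ℝ) : ℂ), 0] with hN
  have hN3 : N 3 = 0 := rfl
  have hNx : xp N = α := by
    unfold xp
    have h0 : (N 0).re = ph * α + ph' * α' := rfl
    have h1 : (N 1).re = α + α' := rfl
    rw [h0, h1, div_eq_iff sqrt5_pos.ne', ← ph_sub]
    ring
  have hNm : xm N = α' := by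
    unfold xm
    have h0 : (N 0).re = ph * α + ph' * α' := rfl
    have h1 : (N 1).re = α + α' := rfl
    rw [h0, h1, div_eq_iff sqrt5_pos.ne', ← ph_sub]
    ring
  have hN0 : x0 N = l := rfl
  have hlinN : lin α α' l N ≠ 0 := by
    rw [lin_apply, hNx, hNm, hN0]
    have h0 : 0 ≤ α * α := mul_self_nonneg _
    have h1 : 0 ≤ α' * α' := mul_self_nonneg _
    have h2 : 0 ≤ l * l := mul_self_nonneg _
    rcases hne with h | h | h
    · have := mul_self_pos.2 h
      linarith
    · have := mul_self_pos.2 h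
      linarith
    · have := mul_self_pos.2 h
      linarith
  have hev : ∀ᶠ Q in 𝓝 P, rfun a A s p Q ≤ 0 → r₁ Q ≤ 0 := by
    filter_upwards [hDo'.mem_nhds hP] with Q hQ hQr
    have h1 := hS1 α α' l Q hQ hQr
    simp only [hr₁, hf]
    rw [lin_apply]
    linarith
  obtain ⟨-, hB⟩ := hBARL (rfun a A s p) r₁ P N hrc hr₁c hr0 hr₁0 (by rw [hDr N hN3]; exact hlinN)
    (by rw [hDr N hN3, hDr₁ N hN3]) hev
  have h1 := hB ξ hξ
  have h2 := hB (Complex.I • ξ) hiξ
  have h3 : leviForm r₁ P ξ ≤ leviForm (rfun a A s p) P ξ := by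
    unfold leviForm
    exact add_le_add h1 h2
  refine le_trans ?_ h3
  -- the Levi form of r₁
  have h4 : fderiv ℝ r₁ =ᶠ[𝓝 P] fun Q => lin α α' l - fderiv ℝ (fun Q : V4 => f (Q 3)) Q := by
    have h5 : ∀ᶠ Q in 𝓝 P, DifferentiableAt ℝ (fun Q : V4 => f (Q 3)) Q := by
      have h6 : ContDiffAt ℝ 1 (fun Q : V4 => f (Q 3)) P := hfQ.of_le (by norm_num)
      exact (h6.eventually (by simp)).mono fun z hz => hz.differentiableAt (by simp)
    filter_upwards [h5] with Q hQ
    simp only [hr₁]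
    rw [fderiv_fun_sub (lin α α' l).differentiableAt hQ, ContinuousLinearMap.fderiv]
  have h5 : fderiv ℝ (fderiv ℝ r₁) P = -fderiv ℝ (fderiv ℝ (fun Q : V4 => f (Q 3))) P := by
    rw [h4.fderiv_eq, fderiv_const_sub]
  have h6 : leviForm r₁ P ξ = -leviForm (fun Q : V4 => f (Q 3)) P ξ := by
    unfold leviForm
    rw [h5]
    simp
    ring
  rw [h6, hLVW f P hf2 ξ]
  have h7 : lapC f (P 3) ≤ 0 := by
    have h8 : lapC f (P 3) = lapC (H0f a A s α α' l) (P 3) - α * lapC p (P 3) := lapC_lin hHat hpat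
    rw [h8]
    have h9 := hLH0 a A s hs α α' l hne (P 3) hw
    have hsx := hs.pos (P 3).re (abs_lt.1 hP)
    have hk1 := hs.k1 (P 3).re (abs_lt.1 hP)
    have hkone : 0 ≤ kone A s (P 3).re := by
      unfold kone
      linarith
    have h10 : 0 ≤ (4 * s (P 3).re ^ 3 * kone A s (P 3).re * uf α (P 3).im ^ 4 +
        18 / 5 * A ^ 4 * uf α (P 3).im ^ 2 * gf α' l (P 3).im +
        48 * A ^ 4 * a ^ 2 * gf α' l (P 3).im ^ 2) /
        (4 * Ff a A s α α' l (P 3) * Real.sqrt (Ff a A s α α' l (P 3))) := by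
      have hg : 0 ≤ gf α' l (P 3).im := by
        unfold gf
        positivity
      have hu4 : 0 ≤ uf α (P 3).im ^ 4 := by positivity
      positivity
    rw [← ht, huf] at h9
    rw [← ht, huf] at h10
    have hp2 := hp.p2 (P 3) hw2
    have hp3 := (hp.p3 (P 3) hw2).2.2
    rw [← ht] at hp3
    by_cases hα0 : 0 ≤ α
    · have h11 : 0 ≤ α * lapC p (P 3) := mul_nonneg hα0 hp2
      have h12 : 0 ≤ kap ^ 2 * A * max (-u) 0 := by positivity
      linarith
    · rw [not_le] at hα0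
      have h11 : α * (δ₀ * Real.exp (kap * t)) ≤ α * lapC p (P 3) :=
        mul_le_mul_of_nonpos_left hp3 hα0.le
      have h12 : α * (δ₀ * Real.exp (kap * t)) = δ₀ * u := by
        rw [hα]
        have h13 : Real.exp (-(kap * t)) * Real.exp (kap * t) = 1 := by
          rw [← Real.exp_add, neg_add_cancel, Real.exp_zero]
        linear_combination (u * δ₀) * h13
      have hu0 : u < 0 := by
        rw [hα] at hα0
        exact neg_of_mul_neg_left hα0 hE1.le
      have h13 : max (-u) 0 = -u := max_eq_left (by linarith)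
      rw [h13] at h9
      have h14 : δ₀ * (-u) ≤ kap ^ 2 * A / 4 * (-u) := mul_le_mul_of_nonneg_right hδ (by linarith)
      have h15 : 0 ≤ kap ^ 2 * A * (-u) := by
        have : 0 ≤ -u := by linarith
        positivity
      linarith
  have h8 : 0 ≤ ‖ξ 3‖ ^ 2 := sq_nonneg _
  nlinarith

end Pool.Agent.Helper98.AB
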