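import Pool.Agent.Helper15.AB.GoalsE

/-! # Project AB, packet LF -/

open MeasureTheory Set Filter Topology
open scoped ContDiff

noncomputable section

namespace Pool.Agent.Helper98.AB

open Pool.Agent.Helper24.AB Pool.Agent.Helper15.AB

/-- `f` has the partial derivatives `p, q` (in the directions `1`, `i`) at `w` -/
def HD (f : ℂ → ℝ) (p q : ℝ) (w : ℂ) : Prop :=
  HasFDerivAt f (p • Complex.reCLM + q • Complex.imCLM) w

section HD
variable {f g : ℂ → ℝ} {p q p' q' : ℝ} {w : ℂ}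

theorem HD.dS_eq (h : HD f p q w) : dS f w = p := by
  unfold dS
  rw [HasFDerivAt.fderiv h]
  simp

theorem HD.dT_eq (h : HD f p q w) : dT f w = q := by
  unfold dT
  rw [HasFDerivAt.fderiv h]
  simp

theorem HD.add (h : HD f p q w) (h' : HD g p' q' w) : HD (fun w => f w + g w) (p + p') (q + q') w := by
  have h1 := HasFDerivAt.fun_add h h'
  have h2 : (p + p') • Complex.reCLM + (q + q') • Complex.imCLM =
      p • Complex.reCLM + q • Complex.imCLM + (p' • Complex.reCLM + q' • Complex.imCLM) := by module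
  unfold HD
  rw [h2]
  exact h1

theorem HD.mul (h : HD f p q w) (h' : HD g p' q' w) :
    HD (fun w => f w * g w) (f w * p' + g w * p) (f w * q' + g w * q) w := by
  have h1 := HasFDerivAt.fun_mul h h'
  have h2 : (f w * p' + g w * p) • Complex.reCLM + (f w * q' + g w * q) • Complex.imCLM =
      f w • (p' • Complex.reCLM + q' • Complex.imCLM) +
      g w • (p • Complex.reCLM + q • Complex.imCLM) := by module
  unfold HD
  rw [h2]
  exact h1

theorem HD.const (c : ℝ) : HD (fun _ => c) 0 0 w := by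
  unfold HD
  simp
  exact hasFDerivAt_const c w

theorem HD.of_re {φ : ℝ → ℝ} {φ' : ℝ} (h : HasDerivAt φ φ' w.re) : HD (fun w => φ w.re) φ' 0 w := by
  unfold HD
  have h1 : HasFDerivAt (fun w : ℂ => φ w.re) (φ' • Complex.reCLM) w :=
    h.comp_hasFDerivAt w Complex.reCLM.hasFDerivAt
  simpa using h1

theorem HD.of_im {φ : ℝ → ℝ} {φ' : ℝ} (h : HasDerivAt φ φ' w.im) : HD (fun w => φ w.im) 0 φ' w := by
  unfold HD
  have h1 : HasFDerivAt (fun w : ℂ => φ w.im) (φ' • Complex.imCLM) w :=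
    h.comp_hasFDerivAt w Complex.imCLM.hasFDerivAt
  simpa using h1

theorem HD.comp {φ : ℝ → ℝ} {φ' : ℝ} (h : HD f p q w) (hφ : HasDerivAt φ φ' (f w)) :
    HD (fun w => φ (f w)) (φ' * p) (φ' * q) w := by
  unfold HD
  have h1 := hφ.comp_hasFDerivAt w h
  have h2 : (φ' * p) • Complex.reCLM + (φ' * q) • Complex.imCLM =
      φ' • (p • Complex.reCLM + q • Complex.imCLM) := by module
  rw [h2]
  exact h1

theorem HD.congr' (h : HD f p q w) (hp : p = p') (hq : q = q') : HD f p' q' w := by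
  rw [← hp, ← hq]
  exact h

theorem HD.diff (h : HD f p q w) : DifferentiableAt ℝ f w := HasFDerivAt.differentiableAt h

end HD

/-- second derivatives along the strip -/
theorem lapC_of {f P Q : ℂ → ℝ} {D : Set ℂ} (hD : IsOpen D) {w : ℂ} (hw : w ∈ D)
    (h : ∀ z ∈ D, HD f (P z) (Q z) z) {a b c d : ℝ} (hP : HD P a b w) (hQ : HD Q c d w) :
    lapC f w = a + d := by
  have h1 : dS f =ᶠ[𝓝 w] P := by
    filter_upwards [hD.mem_nhds hw] with z hz
    exact (h z hz).dS_eq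
  have h2 : dT f =ᶠ[𝓝 w] Q := by
    filter_upwards [hD.mem_nhds hw] with z hz
    exact (h z hz).dT_eq
  have h3 : dS (dS f) w = a := by
    rw [← hP.dS_eq]
    unfold dS at h1 ⊢
    rw [h1.fderiv_eq]
  have h4 : dT (dT f) w = d := by
    rw [← hQ.dT_eq]
    unfold dT at h2 ⊢
    rw [h2.fderiv_eq]
  unfold lapC
  rw [h3, h4]

theorem uf_deriv (α t : ℝ) : HasDerivAt (uf α) (kap * uf α t) t := by
  unfold uf
  have h1 : HasDerivAt (fun t : ℝ => kap * t) kap t := by
    simpa using (hasDerivAt_id' t).const_mul kap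
  have h2 := (h1.exp).const_mul α
  exact h2.congr_deriv (by ring)

theorem vf_deriv (α' t : ℝ) : HasDerivAt (vf α') (-(kap * vf α' t)) t := by
  unfold vf
  have h1 : HasDerivAt (fun t : ℝ => -(kap * t)) (-kap) t := by
    have h := (hasDerivAt_id' t).const_mul (-kap)
    rw [mul_one] at h
    exact h.congr_of_eventuallyEq (Eventually.of_forall fun y => by ring)
  have h2 := (h1.exp).const_mul α'
  exact h2.congr_deriv (by ring)

theorem uf_smooth (α : ℝ) : ContDiff ℝ ∞ (uf α) := by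
  unfold uf
  exact contDiff_const.mul (contDiff_const.mul contDiff_id).exp

theorem vf_smooth (α : ℝ) : ContDiff ℝ ∞ (vf α) := by
  unfold vf
  exact contDiff_const.mul (contDiff_const.mul contDiff_id).neg.exp

/-- differentiability of the profile -/
theorem prof_deriv {a A : ℝ} {s : ℝ → ℝ} (hs : IsProfile a A s) {x : ℝ} (hx : |x| < a) :
    HasDerivAt s (deriv s x) x ∧ HasDerivAt (deriv s) (deriv (deriv s) x) x := by
  have hx' : x ∈ Ioo (-a) a := abs_lt.1 hx
  have h1 : ContDiffAt ℝ ∞ s x := hs.smooth.contDiffAt (isOpen_Ioo.mem_nhds hx')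
  refine ⟨(h1.differentiableAt (by simp)).hasDerivAt, ?_⟩
  have h2 : ContDiffAt ℝ ∞ (deriv s) x := by
    have h3 : ContDiffOn ℝ ∞ (deriv s) (Ioo (-a) a) := hs.smooth.deriv_of_isOpen isOpen_Ioo (by simp)
    exact h3.contDiffAt (isOpen_Ioo.mem_nhds hx')
  exact (h2.differentiableAt (by simp)).hasDerivAt

theorem e_pos {a x : ℝ} (hx : |x| < a) : 0 < a ^ 2 - x ^ 2 := by
  have h := abs_lt.1 hx
  have := sq_lt_sq' (by linarith [h.1]) h.2
  linarith

theorem Ff_pos {a A : ℝ} {s : ℝ → ℝ} (hs : IsProfile a A s) {α α' l : ℝ}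
    (hne : α ≠ 0 ∨ α' ≠ 0 ∨ l ≠ 0) {w : ℂ} (hw : |w.re| < a) : 0 < Ff a A s α α' l w := by
  have hA := hs.A_pos
  have hsx := hs.pos w.re (abs_lt.1 hw)
  have he := e_pos hw
  have hE1 : 0 < Real.exp (kap * w.im) := Real.exp_pos _
  have hE2 : 0 < Real.exp (-(kap * w.im)) := Real.exp_pos _
  unfold Ff gf
  by_cases h1 : α = 0
  · have h2 : α' ≠ 0 ∨ l ≠ 0 := by
      rcases hne with h | h
      · exact absurd h1 h
      · exact h
    have h3 : 0 < vf α' w.im ^ 2 + l ^ 2 := by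
      rcases h2 with h | h
      · have : vf α' w.im ≠ 0 := mul_ne_zero h hE2.ne'
        positivity
      · positivity
    have h4 : 0 < 4 * A ^ 2 * (a ^ 2 - w.re ^ 2) * (vf α' w.im ^ 2 + l ^ 2) := by positivity
    have h5 : 0 ≤ s w.re ^ 2 * uf α w.im ^ 2 := by positivity
    linarith
  · have : uf α w.im ≠ 0 := mul_ne_zero h1 hE1.ne'
    have h4 : 0 ≤ 4 * A ^ 2 * (a ^ 2 - w.re ^ 2) * (vf α' w.im ^ 2 + l ^ 2) := by positivity
    have h5 : 0 < s w.re ^ 2 * uf α w.im ^ 2 := by positivity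
    linarith

theorem Ff_smooth {a A : ℝ} {s : ℝ → ℝ} (hs : IsProfile a A s) (α α' l : ℝ) :
    ContDiffOn ℝ ∞ (Ff a A s α α' l) (strip a) := by
  have hre : ContDiff ℝ ∞ fun w : ℂ => w.re := Complex.reCLM.contDiff
  have him : ContDiff ℝ ∞ fun w : ℂ => w.im := Complex.imCLM.contDiff
  have h1 : ContDiffOn ℝ ∞ (fun w : ℂ => s w.re) (strip a) :=
    hs.smooth.comp hre.contDiffOn fun w hw => abs_lt.1 hw
  unfold Ff gf
  refine ContDiffOn.add ?_ ?_
  · exact (h1.pow 2).mul (((uf_smooth α).comp him).pow 2).contDiffOn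
  · refine ContDiff.contDiffOn ?_
    exact (contDiff_const.mul (contDiff_const.sub (hre.pow 2))).mul
      ((((vf_smooth α').comp him).pow 2).add contDiff_const)

section der
variable {a A : ℝ} {s : ℝ → ℝ} (α α' l : ℝ)

/-- `F_σ` -/
def FS (a A : ℝ) (s : ℝ → ℝ) (α α' l : ℝ) (w : ℂ) : ℝ :=
  2 * (s w.re * deriv s w.re) * uf α w.im ^ 2 + -(8 * A ^ 2) * w.re * (vf α' w.im ^ 2 + l ^ 2)

/-- `F_t` -/
def FT (a A : ℝ) (s : ℝ → ℝ) (α α' : ℝ) (w : ℂ) : ℝ :=
  2 * kap * (s w.re ^ 2 * uf α w.im ^ 2 + -(4 * A ^ 2) * (a ^ 2 - w.re ^ 2) * vf α' w.im ^ 2)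

theorem hd_re2 (w : ℂ) : HD (fun w => a ^ 2 - w.re ^ 2) (-(2 * w.re)) 0 w := by
  have h2 : HasDerivAt (fun y : ℝ => a ^ 2 - y ^ 2) (-(2 * w.re)) w.re := by
    simpa using (hasDerivAt_pow 2 w.re).const_sub (a ^ 2)
  exact HD.of_re (φ := fun y => a ^ 2 - y ^ 2) h2

theorem hd_u2 (w : ℂ) : HD (fun w => uf α w.im ^ 2) 0 (2 * kap * uf α w.im ^ 2) w := by
  have h1 := HD.of_im (w := w) (uf_deriv α w.im)
  refine ((h1.mul h1).congr' (by ring) (by ring) : HD _ 0 (2 * kap * uf α w.im ^ 2) w) |> fun h => ?_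
  have : (fun w : ℂ => uf α w.im ^ 2) = fun w : ℂ => uf α w.im * uf α w.im := by
    funext z
    ring
  rw [this]
  exact h

theorem hd_v2 (w : ℂ) : HD (fun w => vf α' w.im ^ 2) 0 (-(2 * kap * vf α' w.im ^ 2)) w := by
  have h1 := HD.of_im (w := w) (vf_deriv α' w.im)
  refine ((h1.mul h1).congr' (by ring) (by ring) : HD _ 0 (-(2 * kap * vf α' w.im ^ 2)) w) |> fun h => ?_
  have : (fun w : ℂ => vf α' w.im ^ 2) = fun w : ℂ => vf α' w.im * vf α' w.im := by
    funext z
    ring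
  rw [this]
  exact h

theorem hd_s2 (hs : IsProfile a A s) {w : ℂ} (hw : |w.re| < a) :
    HD (fun w => s w.re ^ 2) (2 * (s w.re * deriv s w.re)) 0 w := by
  have h1 := HD.of_re (w := w) (prof_deriv hs hw).1
  have h2 := (h1.mul h1).congr' (p' := 2 * (s w.re * deriv s w.re)) (q' := 0) (by ring) (by ring)
  have : (fun w : ℂ => s w.re ^ 2) = fun w : ℂ => s w.re * s w.re := by
    funext z
    ring
  rw [this]
  exact h2

theorem hd_F (hs : IsProfile a A s) {w : ℂ} (hw : |w.re| < a) :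
    HD (Ff a A s α α' l) (FS a A s α α' l w) (FT a A s α α' w) w := by
  have h1 := (hd_s2 hs hw).mul (hd_u2 α w)
  have h2 := ((HD.const (w := w) (4 * A ^ 2)).mul (hd_re2 (a := a) w)).mul
    ((hd_v2 α' w).add (HD.const (w := w) (l ^ 2)))
  have h3 := h1.add h2
  refine HD.congr' h3 ?_ ?_
  · unfold FS
    ring
  · unfold FT
    ring

theorem hd_FS (hs : IsProfile a A s) {w : ℂ} (hw : |w.re| < a) :
    HD (FS a A s α α' l) (2 * (deriv s w.re ^ 2 + s w.re * deriv (deriv s) w.re) * uf α w.im ^ 2 -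
      8 * A ^ 2 * (vf α' w.im ^ 2 + l ^ 2)) (2 * (s w.re * deriv s w.re) * (2 * kap * uf α w.im ^ 2) +
      16 * A ^ 2 * kap * w.re * vf α' w.im ^ 2) w := by
  have h1 := HD.of_re (w := w) (prof_deriv hs hw).1
  have h2 := HD.of_re (w := w) (prof_deriv hs hw).2
  have h3 := ((HD.const (w := w) 2).mul (h1.mul h2)).mul (hd_u2 α w)
  have h4 : HD (fun w => w.re) 1 0 w := HD.of_re (φ := fun y => y) (hasDerivAt_id' w.re)
  have h5 := ((HD.const (w := w) (-(8 * A ^ 2))).mul h4).mul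
    ((hd_v2 α' w).add (HD.const (w := w) (l ^ 2)))
  refine HD.congr' (h3.add h5) ?_ ?_
  · ring
  · ring

theorem hd_FT (hs : IsProfile a A s) {w : ℂ} (hw : |w.re| < a) :
    HD (FT a A s α α') (2 * kap * (2 * (s w.re * deriv s w.re) * uf α w.im ^ 2 +
      8 * A ^ 2 * w.re * vf α' w.im ^ 2)) (4 * kap ^ 2 * (s w.re ^ 2 * uf α w.im ^ 2 +
      4 * A ^ 2 * (a ^ 2 - w.re ^ 2) * vf α' w.im ^ 2)) w := by
  have h1 := (hd_s2 hs hw).mul (hd_u2 α w)
  have h2 := ((HD.const (w := w) (-(4 * A ^ 2))).mul (hd_re2 (a := a) w)).mul (hd_v2 α' w)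
  have h3 := (HD.const (w := w) (2 * kap)).mul (h1.add h2)
  refine HD.congr' h3 ?_ ?_
  · ring
  · ring

end der

/-- `sqrt` and `1/(2 sqrt)` -/
theorem sqrt_der {y : ℝ} (hy : 0 < y) : HasDerivAt Real.sqrt (1 / (2 * Real.sqrt y)) y :=
  Real.hasDerivAt_sqrt hy.ne'

theorem isqrt_der {y : ℝ} (hy : 0 < y) :
    HasDerivAt (fun y => 1 / (2 * Real.sqrt y)) (-(1 / (4 * y * Real.sqrt y))) y := by
  have h0 := Real.sqrt_pos.2 hy
  have h1 := ((sqrt_der hy).const_mul 2).fun_inv (by positivity)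
  have h2 : (fun y => 1 / (2 * Real.sqrt y)) = fun y => (2 * Real.sqrt y)⁻¹ := by
    funext z
    rw [one_div]
  rw [h2]
  refine h1.congr_deriv ?_
  have h3 : Real.sqrt y ^ 2 = y := Real.sq_sqrt hy.le
  set t := Real.sqrt y with ht
  rw [← h3]
  field_simp
  ring

theorem lf : S_LF := by
  intro a A s hs α α' l hne w hw
  have ho : IsOpen (strip a) := by
    unfold strip
    exact isOpen_lt (by fun_prop) continuous_const
  have hFp : ∀ z ∈ strip a, 0 < Ff a A s α α' l z := fun z hz => Ff_pos hs hne hz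
  have hw' : |w.re| < a := hw
  have him : ContDiff ℝ ∞ fun w : ℂ => w.im := Complex.imCLM.contDiff
  refine ⟨hFp w hw, ?_, ?_⟩
  · unfold H0f
    exact (contDiff_const.mul ((uf_smooth α).comp him)).contDiffOn.add
      ((Ff_smooth hs α α' l).sqrt fun z hz => (hFp z hz).ne')
  · -- first derivatives
    have h1 : ∀ z ∈ strip a, HD (H0f a A s α α' l)
        (1 / (2 * Real.sqrt (Ff a A s α α' l z)) * FS a A s α α' l z)
        (A * (kap * uf α z.im) + 1 / (2 * Real.sqrt (Ff a A s α α' l z)) * FT a A s α α' z) z := by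
      intro z hz
      have e1 := HD.of_im (w := z) (uf_deriv α z.im)
      have e2 := (HD.const (w := z) A).mul e1
      have e3 := (hd_F α α' l hs hz).comp (sqrt_der (hFp z hz))
      refine HD.congr' (e2.add e3) ?_ ?_
      · ring
      · ring
    have e1 := HD.of_im (w := w) (uf_deriv α w.im)
    have e2 := (HD.const (w := w) A).mul ((HD.const (w := w) kap).mul e1)
    have e3 : HD (fun z => 1 / (2 * Real.sqrt (Ff a A s α α' l z)))
        (-(1 / (4 * Ff a A s α α' l w * Real.sqrt (Ff a A s α α' l w))) * FS a A s α α' l w)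
        (-(1 / (4 * Ff a A s α α' l w * Real.sqrt (Ff a A s α α' l w))) * FT a A s α α' w) w :=
      (hd_F α α' l hs hw').comp (φ := fun y => 1 / (2 * Real.sqrt y)) (isqrt_der (hFp w hw))
    have e4 := e3.mul (hd_FS α α' l hs hw')
    have e5 := e2.add (e3.mul (hd_FT α α' hs hw'))
    rw [lapC_of ho hw h1 e4 e5]
    have hF := hFp w hw
    have hFe : Ff a A s α α' l w = s w.re ^ 2 * uf α w.im ^ 2 +
      4 * A ^ 2 * (a ^ 2 - w.re ^ 2) * (vf α' w.im ^ 2 + l ^ 2) := rfl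
    unfold Tex
    rw [← hFe]
    set F := Ff a A s α α' l w with hFd
    have hq := Real.sqrt_pos.2 hF
    unfold FS FT
    field_simp
    ring

end Pool.Agent.Helper98.AB
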