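import Pool.Agent.Helper98.AB.SUM

/-! # Project AB, packet BLK -/

open MeasureTheory Set Filter Topology
open scoped ContDiff

noncomputable section

namespace Pool.Agent.Helper98.AB

open Pool.Agent.Helper24.AB Pool.Agent.Helper15.AB

theorem isOpen_strip' (b : ℝ) : IsOpen (strip b) := by
  unfold strip
  exact isOpen_lt (by fun_prop) continuous_const

theorem chS_one {x : ℝ} (hx : |x| ≤ 3 / 4) : chS x = 1 := by
  unfold chS
  exact Real.smoothTransition.one_of_one_le (by linarith)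

theorem chS_zero {x : ℝ} (hx : 1 ≤ |x|) : chS x = 0 := by
  unfold chS
  exact Real.smoothTransition.zero_of_nonpos (by linarith)

theorem chS_smooth : ContDiff ℝ ∞ chS := by
  rw [contDiff_iff_contDiffAt]
  intro x
  by_cases hx : x = 0
  · have h1 : chS =ᶠ[𝓝 x] fun _ => 1 := by
      have h2 : IsOpen {y : ℝ | |y| < 3 / 4} := isOpen_lt (by fun_prop) continuous_const
      have h3 : x ∈ {y : ℝ | |y| < 3 / 4} := by
        rw [hx]
        show |(0 : ℝ)| < 3 / 4
        norm_num
      filter_upwards [h2.mem_nhds h3] with y hy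
      exact chS_one (le_of_lt hy)
    exact contDiffAt_const.congr_of_eventuallyEq h1
  · unfold chS
    have h1 : ContDiffAt ℝ ∞ (fun x : ℝ => 4 - 4 * |x|) x :=
      contDiffAt_const.sub (contDiffAt_const.mul (contDiffAt_abs hx))
    exact ContDiffAt.comp x (Real.smoothTransition.contDiff.contDiffAt) h1

/-- translation and the operators -/
theorem lapC_comp_sub (f : ℂ → ℝ) (x w : ℂ) : lapC (fun w => f (w - x)) w = lapC f (w - x) := by
  have h1 : ∀ g : ℂ → ℝ, dS (fun w => g (w - x)) = fun w => dS g (w - x) := by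
    intro g
    funext w
    unfold dS
    rw [fderiv_comp_sub]
  have h2 : ∀ g : ℂ → ℝ, dT (fun w => g (w - x)) = fun w => dT g (w - x) := by
    intro g
    funext w
    unfold dT
    rw [fderiv_comp_sub]
  unfold lapC
  rw [h1, h2, h1, h2]

theorem dS_congr {f g : ℂ → ℝ} {w : ℂ} (h : f =ᶠ[𝓝 w] g) : dS f w = dS g w := by
  unfold dS
  rw [h.fderiv_eq]

theorem dT_congr {f g : ℂ → ℝ} {w : ℂ} (h : f =ᶠ[𝓝 w] g) : dT f w = dT g w := by
  unfold dT
  rw [h.fderiv_eq]

theorem lapC_congr {f g : ℂ → ℝ} {w : ℂ} (h : f =ᶠ[𝓝 w] g) : lapC f w = lapC g w := by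
  have h1 : dS f =ᶠ[𝓝 w] dS g := h.eventuallyEq_nhds.mono fun z hz => dS_congr hz
  have h2 : dT f =ᶠ[𝓝 w] dT g := h.eventuallyEq_nhds.mono fun z hz => dT_congr hz
  unfold lapC
  rw [dS_congr h1, dT_congr h2]

/-- Laplacian of a finite sum of functions smooth near a point -/
theorem lapC_sum {ι : Type*} (S : Finset ι) (f : ι → ℂ → ℝ) (w : ℂ)
    (h : ∀ i ∈ S, ContDiffAt ℝ ∞ (f i) w) :
    lapC (fun w => ∑ i ∈ S, f i w) w = ∑ i ∈ S, lapC (f i) w := by
  have hev : ∀ᶠ z in 𝓝 w, ∀ i ∈ S, DifferentiableAt ℝ (f i) z := by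
    rw [Finset.eventually_all]
    intro i hi
    have h1 : ContDiffAt ℝ 1 (f i) w := (h i hi).of_le (WithTop.coe_le_coe.2 (le_top : (1 : ℕ∞) ≤ ⊤))
    have h2 := h1.eventually (by simp)
    exact h2.mono fun z hz => hz.differentiableAt (by simp)
  have hdir : ∀ (e : ℂ), (fun z => fderiv ℝ (fun w => ∑ i ∈ S, f i w) z e) =ᶠ[𝓝 w]
      fun z => ∑ i ∈ S, fderiv ℝ (f i) z e := by
    intro e
    filter_upwards [hev] with z hz
    rw [fderiv_fun_sum hz]
    simp
  have hd2 : ∀ (e : ℂ), ∀ i ∈ S, DifferentiableAt ℝ (fun z => fderiv ℝ (f i) z e) w := by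
    intro e i hi
    have h1 : ContDiffAt ℝ ∞ (fderiv ℝ (f i)) w := (h i hi).fderiv_right (m := ∞) (by simp)
    exact (h1.clm_apply contDiffAt_const).differentiableAt (by simp)
  have h3 : ∀ e : ℂ, fderiv ℝ (fun z => fderiv ℝ (fun w => ∑ i ∈ S, f i w) z e) w e =
      ∑ i ∈ S, fderiv ℝ (fun z => fderiv ℝ (f i) z e) w e := by
    intro e
    rw [(hdir e).fderiv_eq, fderiv_fun_sum (hd2 e)]
    simp
  show fderiv ℝ (fun z => fderiv ℝ (fun w => ∑ i ∈ S, f i w) z 1) w 1 +
    fderiv ℝ (fun z => fderiv ℝ (fun w => ∑ i ∈ S, f i w) z Complex.I) w Complex.I = _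
  rw [h3, h3, ← Finset.sum_add_distrib]
  rfl

theorem strip_sub {w x : ℂ} {b : ℝ} (hw : |w.re| < b) (hx : |x.re| < 1 / 2) (hb : b ≤ 107 / 100) :
    w - x ∈ strip (Real.pi / 2) := by
  show |(w - x).re| < Real.pi / 2
  rw [Complex.sub_re]
  have h1 := abs_sub w.re x.re
  have h2 := Real.pi_gt_d2
  linarith

theorem blk (hLR : S_LR) (hSER : S_SER) (hSERL : S_SERL) : S_BLK := by
  intro S r hr hr1 hS
  obtain ⟨e1, e2, e3⟩ := hSER r hr hr1
  obtain ⟨l1, l2, l3⟩ := hSERL r hr hr1
  obtain ⟨-, -, -, m4⟩ := hLR r hr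
  have hEs : ∀ x ∈ S, ∀ w : ℂ, |w.re| < 107 / 100 → ContDiffAt ℝ ∞ (fun w => Er r (w - x)) w := by
    intro x hx w hw
    have h1 : w - x ∈ strip (Real.pi / 2) := strip_sub hw (hS x hx) le_rfl
    have h2 : ContDiffAt ℝ ∞ (Er r) (w - x) := e2.contDiffAt ((isOpen_strip' _).mem_nhds h1)
    exact ContDiffAt.comp w (f := fun w => w - x) h2 (contDiffAt_id.sub contDiffAt_const)
  have hsum : ∀ w : ℂ, |w.re| < 107 / 100 → ContDiffAt ℝ ∞ (fun w => ∑ x ∈ S, Er r (w - x)) w :=
    fun w hw => ContDiffAt.sum fun x hx => hEs x hx w hw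
  have hch : ContDiff ℝ ∞ fun w : ℂ => chS w.re := chS_smooth.comp Complex.reCLM.contDiff
  have hPz : ∀ w : ℂ, 1 ≤ |w.re| → Pb S r w = 0 := by
    intro w hw
    unfold Pb
    rw [chS_zero hw, zero_mul]
  have hloc : ∀ w ∈ strip (3 / 4), Pb S r =ᶠ[𝓝 w] fun w => ∑ x ∈ S, Er r (w - x) := by
    intro w hw
    filter_upwards [(isOpen_strip' _).mem_nhds hw] with z hz
    unfold Pb
    rw [chS_one (le_of_lt hz), one_mul]
  have hlapP : ∀ w ∈ strip (3 / 4), lapC (Pb S r) w = ∑ x ∈ S, lapC (Er r) (w - x) := by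
    intro w hw
    have hw' : |w.re| < 3 / 4 := hw
    rw [lapC_congr (hloc w hw), lapC_sum S (fun x w => Er r (w - x)) w
      fun x hx => hEs x hx w (by linarith)]
    exact Finset.sum_congr rfl fun x _ => lapC_comp_sub _ _ _
  have hst : ∀ w ∈ strip (3 / 4), ∀ x ∈ S, w - x ∈ strip (Real.pi / 2) := fun w hw x hx =>
    strip_sub hw (hS x hx) (by norm_num)
  refine ⟨?_, ?_, hPz, ?_, ?_, ?_⟩
  · rw [contDiff_iff_contDiffAt]
    intro w
    by_cases hw : |w.re| < 107 / 100
    · exact hch.contDiffAt.mul (hsum w hw)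
    · have h1 : Pb S r =ᶠ[𝓝 w] fun _ => 0 := by
        have h2 : IsOpen {z : ℂ | 1 < |z.re|} := isOpen_lt continuous_const (by fun_prop)
        rw [not_lt] at hw
        have h3 : w ∈ {z : ℂ | 1 < |z.re|} := by
          show 1 < |w.re|
          linarith
        filter_upwards [h2.mem_nhds h3] with z hz
        exact hPz z (le_of_lt hz)
      exact contDiffAt_const.congr_of_eventuallyEq h1
  · intro w
    unfold Pb
    have h1 : (w + tpi).re = w.re := by simp [tpi]
    have h2 : ∀ x, Er r (w + tpi - x) = lam * Er r (w - x) := by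
      intro x
      rw [← e1, show w + tpi - x = w - x + tpi by ring]
    rw [h1]
    simp only [h2]
    rw [← Finset.mul_sum]
    ring
  · intro w hw
    rw [hlapP w hw]
    exact Finset.sum_nonneg fun x hx => l1 _ (hst w hw x hx)
  · intro w hw hk
    rw [hlapP w hw]
    exact Finset.sum_eq_zero fun x hx => l2 _ (hst w hw x hx) fun k => hk x hx k
  · intro x hx R hrR hR1 hball hother
    have h1 : ∀ w ∈ Metric.ball x R, lapC (Pb S r) w = 2 / r ^ 2 * deriv vt (‖w - x‖ ^ 2 / r ^ 2) := by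
      intro w hw
      rw [hlapP w (hball hw), Finset.sum_eq_single x]
      · refine e3 (w - x) (hst w (hball hw) x hx) ?_
        have h2 : |(w - x).im| ≤ ‖w - x‖ := Complex.abs_im_le_norm _
        have h3 : ‖w - x‖ < R := by rw [← dist_eq_norm]; exact hw
        linarith
      · intro x' hx' hne
        exact l2 _ (hst w (hball hw) x' hx') fun k => hother x' hx' hne w hw k
      · intro h
        exact absurd hx h
    rw [setIntegral_congr_fun measurableSet_ball h1, ← m4 R hrR]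
    rw [← integral_indicator measurableSet_ball, ← integral_indicator measurableSet_ball]
    rw [← integral_sub_right_eq_self (μ := (volume : Measure ℂ))
      ((Metric.ball (0 : ℂ) R).indicator fun w => 2 / r ^ 2 * deriv vt (‖w‖ ^ 2 / r ^ 2)) x]
    congr 1
    funext w
    by_cases hw : w ∈ Metric.ball x R
    · rw [indicator_of_mem hw, indicator_of_mem]
      rw [mem_ball_zero_iff, ← dist_eq_norm]
      exact hw
    · rw [indicator_of_notMem hw, indicator_of_notMem]
      rw [mem_ball_zero_iff, ← dist_eq_norm]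
      exact hw

end Pool.Agent.Helper98.AB
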