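import Pool.Agent.Helper15.AB.GoalsD

/-! # Project AB, module DF: basic facts used for the packets SUPM, LIMU, MVI -/

open MeasureTheory Set Filter Topology
open scoped ContDiff

noncomputable section

namespace Pool.Agent.Helper98.AB

open Pool.Agent.Helper24.AB Pool.Agent.Helper15.AB

theorem strip_open (b : ℝ) : IsOpen (strip b) := by
  unfold strip
  exact isOpen_lt (by fun_prop) continuous_const

section IsDatFacts
variable {ee a : ℝ} {q m : ℂ → ℝ} {W U : Set V4} {R : V4 → ℝ}

theorem W_sub (hD : IsDat ee a q m W U R) {P : V4} (hP : P ∈ W) : P ∈ U := hD.sub (subset_closure hP)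

theorem R_contAt (hD : IsDat ee a q m W U R) {P : V4} (hP : P ∈ U) : ContDiffAt ℝ ∞ R P :=
  hD.smooth.contDiffAt (hD.openU.mem_nhds hP)

theorem R_cont (hD : IsDat ee a q m W U R) : ContinuousOn R U := hD.smooth.continuousOn

theorem pow_contDiffAt (hD : IsDat ee a q m W U R) {P : V4} (hP : P ∈ W) :
    ContDiffAt ℝ ∞ (fun P => -((-R P) ^ ee)) P := by
  have h1 := (R_contAt hD (W_sub hD hP)).neg
  have h2 : -R P ≠ 0 := by have := hD.neg P hP; linarith
  exact (h1.rpow_const_of_ne h2).neg

/-- the continuous map `(z,x,y,u,w) ↦ zP z x y u w` -/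
theorem zP_cont : Continuous fun v : ℂ × ℝ × ℝ × ℝ × ℂ => zP v.1 v.2.1 v.2.2.1 v.2.2.2.1 v.2.2.2.2 := by
  unfold zP
  refine continuous_pi fun i => ?_
  fin_cases i <;> simp <;> fun_prop

end IsDatFacts

end Pool.Agent.Helper98.AB
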