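import Pool.Agent.Helper15.AB.GoalsP

/-! # Project AB, packet SUM -/

open MeasureTheory Set Filter Topology
open scoped ContDiff

noncomputable section

namespace Pool.Agent.Helper98.AB

open Pool.Agent.Helper24.AB Pool.Agent.Helper15.AB

theorem lam_ge : 1 ≤ lam := by
  have := Real.sqrt_nonneg 5
  unfold lam
  linarith

theorem lam_le : lam ≤ 3 := by
  have h : Real.sqrt 5 ≤ 3 := by
    rw [Real.sqrt_le_left (by norm_num)]
    norm_num
  unfold lam
  linarith

theorem kap_nonneg : 0 ≤ kap := by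
  unfold kap
  have := Real.log_nonneg lam_ge
  positivity

theorem kap_le : kap ≤ 1 := by
  unfold kap
  have h1 : Real.log lam ≤ 2 := by
    have h2 := Real.log_le_sub_one_of_pos (lt_of_lt_of_le one_pos lam_ge)
    have := lam_le
    linarith
  rw [div_le_one (by positivity)]
  have := Real.pi_gt_three
  linarith

theorem exp_kap : Real.exp (kap * (2 * Real.pi)) = lam := by
  unfold kap
  rw [div_mul_cancel₀ _ (by positivity), Real.exp_log (lt_of_lt_of_le one_pos lam_ge)]

/-! ## Calculus in the plane -/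

/-- the factor `e^{κt}` -/
def ek (c : ℝ) (w : ℂ) : ℝ := Real.exp (c * w.im)

theorem ek_smooth (c : ℝ) : ContDiff ℝ ∞ (ek c) := by
  unfold ek
  exact (contDiff_const.mul Complex.imCLM.contDiff).exp

theorem ek_hasFDerivAt (c : ℝ) (w : ℂ) :
    HasFDerivAt (ek c) ((ek c w * c) • Complex.imCLM) w := by
  have h1 : HasFDerivAt (fun w : ℂ => c * w.im) (c • Complex.imCLM) w :=
    Complex.imCLM.hasFDerivAt.const_mul c
  have h2 := h1.exp
  rw [smul_smul] at h2
  exact h2

theorem dS_mul {f g : ℂ → ℝ} {w : ℂ} (hf : DifferentiableAt ℝ f w) (hg : DifferentiableAt ℝ g w) :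
    dS (fun w => f w * g w) w = f w * dS g w + dS f w * g w := by
  unfold dS
  rw [fderiv_fun_mul hf hg]
  simp
  ring

theorem dT_mul {f g : ℂ → ℝ} {w : ℂ} (hf : DifferentiableAt ℝ f w) (hg : DifferentiableAt ℝ g w) :
    dT (fun w => f w * g w) w = f w * dT g w + dT f w * g w := by
  unfold dT
  rw [fderiv_fun_mul hf hg]
  simp
  ring

theorem dS_ek (c : ℝ) (w : ℂ) : dS (ek c) w = 0 := by
  unfold dS
  rw [(ek_hasFDerivAt c w).fderiv]
  simp

theorem dT_ek (c : ℝ) (w : ℂ) : dT (ek c) w = c * ek c w := by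
  unfold dT
  rw [(ek_hasFDerivAt c w).fderiv]
  simp
  ring

theorem ek_diff (c : ℝ) (w : ℂ) : DifferentiableAt ℝ (ek c) w := (ek_hasFDerivAt c w).differentiableAt

theorem dS_smooth {f : ℂ → ℝ} (hf : ContDiff ℝ ∞ f) : ContDiff ℝ ∞ (dS f) := by
  unfold dS
  exact (hf.fderiv_right (m := ∞) (by simp)).clm_apply contDiff_const

theorem dT_smooth {f : ℂ → ℝ} (hf : ContDiff ℝ ∞ f) : ContDiff ℝ ∞ (dT f) := by
  unfold dT
  exact (hf.fderiv_right (m := ∞) (by simp)).clm_apply contDiff_const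

theorem smooth_diff {f : ℂ → ℝ} (hf : ContDiff ℝ ∞ f) (w : ℂ) : DifferentiableAt ℝ f w :=
  hf.differentiable (by simp) w

theorem lap_ek {f : ℂ → ℝ} (hf : ContDiff ℝ ∞ f) (c : ℝ) (w : ℂ) :
    lapC (fun w => ek c w * f w) w =
      ek c w * (lapC f w + 2 * c * dT f w + c ^ 2 * f w) := by
  have h1 : dS (fun w => ek c w * f w) = fun w => ek c w * dS f w := by
    funext w
    rw [dS_mul (ek_diff c w) (smooth_diff hf w), dS_ek]
    ring
  have h2 : dT (fun w => ek c w * f w) = fun w => ek c w * (dT f w + c * f w) := by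
    funext w
    rw [dT_mul (ek_diff c w) (smooth_diff hf w), dT_ek]
    ring
  have h3 : ContDiff ℝ ∞ fun w => dT f w + c * f w := (dT_smooth hf).add (contDiff_const.mul hf)
  have h4 : dT (fun w => dT f w + c * f w) w = dT (dT f) w + c * dT f w := by
    have h5 : DifferentiableAt ℝ (fun w => c * f w) w := (smooth_diff hf w).const_mul c
    show fderiv ℝ (fun w => dT f w + c * f w) w Complex.I = _
    rw [fderiv_fun_add (smooth_diff (dT_smooth hf) w) h5, fderiv_const_mul (smooth_diff hf w)]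
    rfl
  unfold lapC
  rw [h1, h2, dS_mul (ek_diff c w) (smooth_diff (dS_smooth hf) w),
    dT_mul (ek_diff c w) (smooth_diff h3 w), dS_ek, dT_ek, h4]
  ring

theorem norm_fderiv_ek {f : ℂ → ℝ} (hf : ContDiff ℝ ∞ f) {c : ℝ} (hc : 0 ≤ c) (w : ℂ) :
    ‖fderiv ℝ (fun w => ek c w * f w) w‖ ≤ ek c w * (‖fderiv ℝ f w‖ + c * |f w|) := by
  have hp : 0 ≤ ek c w := (Real.exp_pos _).le
  rw [fderiv_fun_mul (ek_diff c w) (smooth_diff hf w), (ek_hasFDerivAt c w).fderiv]
  calc ‖ek c w • fderiv ℝ f w + f w • (ek c w * c) • Complex.imCLM‖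
      ≤ ‖ek c w • fderiv ℝ f w‖ + ‖f w • (ek c w * c) • Complex.imCLM‖ := norm_add_le _ _
    _ = ek c w * ‖fderiv ℝ f w‖ + |f w| * ((ek c w * c) * 1) := by
        rw [norm_smul, norm_smul, norm_smul, Complex.imCLM_norm, Real.norm_eq_abs, Real.norm_eq_abs,
          Real.norm_eq_abs, abs_of_nonneg hp, abs_of_nonneg (mul_nonneg hp hc)]
    _ = ek c w * (‖fderiv ℝ f w‖ + c * |f w|) := by ring

/-! ## Bounds for periodic functions -/

theorem int_per {f : ℂ → ℝ} (hper : ∀ w, f (w + tpi) = f w) (k : ℤ) (w : ℂ) : f (w + k * tpi) = f w := by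
  have h1 : Function.Periodic f tpi := hper
  exact h1.int_mul k w

theorem per_bound (f : ℂ → ℝ) (hf : ContDiff ℝ ∞ f) (hper : ∀ w, f (w + tpi) = f w)
    (h0 : ∀ w : ℂ, 1 ≤ |w.re| → f w = 0) (m : ℕ) :
    ∃ C : ℝ, 0 ≤ C ∧ ∀ w, ‖iteratedFDeriv ℝ m f w‖ ≤ C := by
  set K : Set ℂ := (Icc (-1 : ℝ) 1) ×ℂ (Icc (0 : ℝ) (2 * Real.pi)) with hK
  have hKc : IsCompact K := isCompact_Icc.reProdIm isCompact_Icc
  have hcont : Continuous (iteratedFDeriv ℝ m f) :=
    hf.continuous_iteratedFDeriv (WithTop.coe_le_coe.2 (le_top : (m : ℕ∞) ≤ ⊤))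
  obtain ⟨C, hC⟩ := hKc.exists_bound_of_continuousOn hcont.continuousOn
  refine ⟨max C 0, le_max_right _ _, fun w => ?_⟩
  by_cases hw : 1 < |w.re|
  · have h1 : f =ᶠ[𝓝 w] fun _ => 0 := by
      have h2 : IsOpen {z : ℂ | 1 < |z.re|} := isOpen_lt continuous_const (by fun_prop)
      filter_upwards [h2.mem_nhds hw] with z hz
      exact h0 z (le_of_lt hz)
    have h3 := (h1.iteratedFDeriv ℝ m).eq_of_nhds
    rw [h3, iteratedFDeriv_fun_zero]
    simp
  · rw [not_lt] at hw
    have hp : 0 < 2 * Real.pi := by positivity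
    obtain ⟨k, hk, -⟩ := existsUnique_add_zsmul_mem_Ico hp w.im 0
    have h1 : iteratedFDeriv ℝ m f (w + k * tpi) = iteratedFDeriv ℝ m f w := by
      have h2 : (fun z => f (z + k * tpi)) = f := by
        funext z
        exact int_per hper k z
      rw [← iteratedFDeriv_comp_add_right, h2]
    rw [← h1]
    refine (hC _ ?_).trans (le_max_left _ _)
    rw [hK, Complex.mem_reProdIm]
    rw [abs_le] at hw
    constructor
    · have : (w + k * tpi).re = w.re := by simp [tpi]
      rw [this]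
      exact hw
    · have : (w + k * tpi).im = w.im + k • (2 * Real.pi) := by simp [tpi]
      rw [this]
      rw [zero_add] at hk
      exact ⟨hk.1, hk.2.le⟩

/-! ## Termwise differentiation -/

theorem tsum_facts (f : ℕ → ℂ → ℝ) (hf : ∀ j, ContDiff ℝ ∞ (f j)) (v : ℕ → ℕ → ℝ)
    (hv : ∀ m, Summable (v m)) (hb : ∀ m j w, ‖iteratedFDeriv ℝ m (f j) w‖ ≤ v m j) :
    ContDiff ℝ ∞ (fun w => ∑' j, f j w) ∧ (∀ w, Summable fun j => f j w) ∧
    (∀ w, |∑' j, f j w| ≤ ∑' j, v 0 j) ∧
    (∀ w, ‖fderiv ℝ (fun w => ∑' j, f j w) w‖ ≤ ∑' j, v 1 j) ∧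
    (∀ w, Summable fun j => dT (f j) w) ∧ (∀ w, Summable fun j => lapC (f j) w) ∧
    (∀ w, dT (fun w => ∑' j, f j w) w = ∑' j, dT (f j) w) ∧
    (∀ w, lapC (fun w => ∑' j, f j w) w = ∑' j, lapC (f j) w) ∧
    (∀ w, |lapC (fun w => ∑' j, f j w) w| ≤ 2 * ∑' j, v 2 j) := by
  have b0 : ∀ j w, |f j w| ≤ v 0 j := fun j w => by
    have := hb 0 j w
    rwa [norm_iteratedFDeriv_zero] at this
  have b1 : ∀ j w, ‖fderiv ℝ (f j) w‖ ≤ v 1 j := fun j w => by
    have := hb 1 j w
    rwa [norm_iteratedFDeriv_one] at this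
  have b2 : ∀ j w, ‖fderiv ℝ (fderiv ℝ (f j)) w‖ ≤ v 2 j := fun j w => by
    have := hb 2 j w
    rwa [← norm_iteratedFDeriv_fderiv, norm_iteratedFDeriv_one] at this
  have s0 : ∀ w, Summable fun j => f j w := fun w => .of_norm_bounded (hv 0) fun j => b0 j w
  -- a general statement on directional derivatives
  have key : ∀ (g : ℕ → ℂ → ℝ) (u : ℕ → ℝ) (e : ℂ), (∀ j, ContDiff ℝ ∞ (g j)) → Summable u →
      (∀ j w, ‖fderiv ℝ (g j) w‖ ≤ u j) → (∀ w, Summable fun j => g j w) → ∀ w,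
      Summable (fun j => fderiv ℝ (g j) w e) ∧
      fderiv ℝ (fun w => ∑' j, g j w) w e = ∑' j, fderiv ℝ (g j) w e := by
    intro g u e hg hu hgu hgs w
    have hs : Summable fun j => fderiv ℝ (g j) w := .of_norm_bounded hu fun j => hgu j w
    have h1 := fderiv_tsum_apply hu (fun j => (hg j).differentiable (by simp)) hgu (hgs 0) w
    refine ⟨(ContinuousLinearMap.apply ℝ ℝ e).summable hs, ?_⟩
    rw [h1]
    exact (ContinuousLinearMap.apply ℝ ℝ e).map_tsum hs
  have nv : ∀ (e : ℂ), ‖e‖ = 1 → ∀ j w, ‖fderiv ℝ (fun w => fderiv ℝ (f j) w e) w‖ ≤ v 2 j := by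
    intro e he j w
    have hd : DifferentiableAt ℝ (fderiv ℝ (f j)) w :=
      ((hf j).fderiv_right (m := ∞) (by simp)).differentiable (by simp) w
    refine ContinuousLinearMap.opNorm_le_bound _
      ((norm_nonneg (fderiv ℝ (fderiv ℝ (f j)) w)).trans (b2 j w)) fun z => ?_
    rw [fderiv_clm_apply hd (differentiableAt_const e)]
    simp only [fderiv_fun_const, Pi.zero_apply, ContinuousLinearMap.comp_zero, zero_add,
      ContinuousLinearMap.flip_apply]
    calc ‖(fderiv ℝ (fderiv ℝ (f j)) w z) e‖ ≤ ‖fderiv ℝ (fderiv ℝ (f j)) w z‖ * ‖e‖ :=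
          ContinuousLinearMap.le_opNorm _ _
      _ ≤ (‖fderiv ℝ (fderiv ℝ (f j)) w‖ * ‖z‖) * ‖e‖ := by
          gcongr
          exact ContinuousLinearMap.le_opNorm _ _
      _ ≤ v 2 j * ‖z‖ := by
          rw [he, mul_one]
          gcongr
          exact b2 j w
  have hS1 : ContDiff ℝ ∞ (fun w => ∑' j, f j w) :=
    contDiff_tsum hf (fun k _ => hv k) fun k i x _ => hb k i x
  have kS := fun w => key f (v 1) 1 hf (hv 1) b1 s0 w
  have kT := fun w => key f (v 1) Complex.I hf (hv 1) b1 s0 w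
  have eS : dS (fun w => ∑' j, f j w) = fun w => ∑' j, dS (f j) w := funext fun w => (kS w).2
  have eT : dT (fun w => ∑' j, f j w) = fun w => ∑' j, dT (f j) w := funext fun w => (kT w).2
  have kSS := fun w => key (fun j => dS (f j)) (v 2) 1 (fun j => dS_smooth (hf j)) (hv 2)
    (fun j w => nv 1 (by simp) j w) (fun w => (kS w).1) w
  have kTT := fun w => key (fun j => dT (f j)) (v 2) Complex.I (fun j => dT_smooth (hf j)) (hv 2)
    (fun j w => nv Complex.I (by simp) j w) (fun w => (kT w).1) w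
  have hlap : ∀ w, lapC (fun w => ∑' j, f j w) w = ∑' j, lapC (f j) w := by
    intro w
    have h1 : dS (dS (fun w => ∑' j, f j w)) w = ∑' j, dS (dS (f j)) w := by
      rw [eS]
      exact (kSS w).2
    have h2 : dT (dT (fun w => ∑' j, f j w)) w = ∑' j, dT (dT (f j)) w := by
      rw [eT]
      exact (kTT w).2
    unfold lapC
    rw [h1, h2]
    exact (Summable.tsum_add (kSS w).1 (kTT w).1).symm
  have hlb : ∀ j w, |lapC (f j) w| ≤ 2 * v 2 j := by
    intro j w
    have h1 : |dS (dS (f j)) w| ≤ v 2 j := by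
      have h2 := nv 1 (by simp) j w
      have h3 := (fderiv ℝ (fun w => fderiv ℝ (f j) w 1) w).le_opNorm 1
      rw [norm_one, mul_one] at h3
      exact h3.trans h2
    have h1' : |dT (dT (f j)) w| ≤ v 2 j := by
      have h2 := nv Complex.I (by simp) j w
      have h3 := (fderiv ℝ (fun w => fderiv ℝ (f j) w Complex.I) w).le_opNorm Complex.I
      rw [Complex.norm_I, mul_one] at h3
      exact h3.trans h2
    unfold lapC
    calc |dS (dS (f j)) w + dT (dT (f j)) w| ≤ _ := abs_add_le _ _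
      _ ≤ 2 * v 2 j := by linarith
  refine ⟨hS1, s0, fun w => ?_, fun w => ?_, fun w => (kT w).1, fun w => (kSS w).1.add (kTT w).1,
    fun w => (kT w).2, hlap, fun w => ?_⟩
  · rw [← Real.norm_eq_abs]
    exact tsum_of_norm_bounded (hv 0).hasSum fun j => b0 j w
  · rw [fderiv_tsum_apply (hv 1) (fun j => (hf j).differentiable (by simp)) b1 (s0 0) w]
    exact tsum_of_norm_bounded (hv 1).hasSum fun j => b1 j w
  · rw [hlap w, ← tsum_mul_left, ← Real.norm_eq_abs]
    exact tsum_of_norm_bounded ((hv 2).mul_left 2).hasSum fun j => hlb j w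

theorem sum : S_SUM := by
  intro P hP hper h0 δ₀ hδ₀
  -- the periodic functions
  set Q : ℕ → ℂ → ℝ := fun j w => ek (-kap) w * P j w with hQ
  have hQs : ∀ j, ContDiff ℝ ∞ (Q j) := fun j => (ek_smooth _).mul (hP j)
  have hPQ : ∀ j w, P j w = ek kap w * Q j w := by
    intro j w
    simp only [hQ, ek]
    rw [← mul_assoc, ← Real.exp_add]
    simp
  have hQper : ∀ j w, Q j (w + tpi) = Q j w := by
    intro j w
    simp only [hQ, ek]
    rw [hper]
    have h1 : (w + tpi).im = w.im + 2 * Real.pi := by simp [tpi]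
    rw [h1, show -kap * (w.im + 2 * Real.pi) = -kap * w.im - kap * (2 * Real.pi) by ring,
      Real.exp_sub, exp_kap]
    have : lam ≠ 0 := (lt_of_lt_of_le one_pos lam_ge).ne'
    field_simp
  have hQ0 : ∀ j (w : ℂ), 1 ≤ |w.re| → Q j w = 0 := by
    intro j w hw
    simp only [hQ]
    rw [h0 j w hw, mul_zero]
  choose C hC0 hC using fun j m => per_bound (Q j) (hQs j) (hQper j) (hQ0 j) m
  set c : ℝ := δ₀ / 10 with hc
  have hcp : 0 < c := by positivity
  set D : ℕ → ℝ := fun j => 1 + ∑ m ∈ Finset.range (j + 3), C j m with hD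
  have hDp : ∀ j, 0 < D j := fun j => by
    have : 0 ≤ ∑ m ∈ Finset.range (j + 3), C j m := Finset.sum_nonneg fun m _ => hC0 j m
    simp only [hD]
    linarith
  have hCD : ∀ j m, m < j + 3 → C j m ≤ D j := by
    intro j m hm
    have := Finset.single_le_sum (f := fun m => C j m) (fun m _ => hC0 j m) (Finset.mem_range.2 hm)
    simp only [hD]
    linarith
  refine ⟨fun j => c * (1 / 2) ^ (j + 1) / D j, fun j => by have := hDp j; positivity, fun ε hε => ?_⟩
  have hε0 : ∀ j, 0 ≤ ε j := fun j => (hε j).1.le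
  set v : ℕ → ℕ → ℝ := fun m j => ε j * C j m with hv
  have hv0 : ∀ m j, 0 ≤ v m j := fun m j => mul_nonneg (hε0 j) (hC0 j m)
  have hvb : ∀ m j, m < j + 3 → v m j ≤ c * (1 / 2) ^ (j + 1) := by
    intro m j hm
    calc ε j * C j m ≤ (c * (1 / 2) ^ (j + 1) / D j) * D j :=
          mul_le_mul (hε j).2 (hCD j m hm) (hC0 j m) (by have := hDp j; positivity)
      _ = c * (1 / 2) ^ (j + 1) := div_mul_cancel₀ _ (hDp j).ne'
  have hgs : HasSum (fun j : ℕ => c * (1 / 2 : ℝ) ^ (j + 1)) c := by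
    have h1 : HasSum (fun j : ℕ => (1 / 2 : ℝ) ^ j) 2 := hasSum_geometric_two
    have h2 := h1.mul_left (c * (1 / 2))
    have h3 : (fun j : ℕ => c * (1 / 2) * (1 / 2 : ℝ) ^ j) = fun j : ℕ => c * (1 / 2 : ℝ) ^ (j + 1) := by
      funext j
      ring
    have h4 : c * (1 / 2) * 2 = c := by ring
    rw [h3, h4] at h2
    exact h2
  have hvs : ∀ m, Summable (v m) := by
    intro m
    apply Summable.of_norm_bounded_eventually_nat hgs.summable
    filter_upwards [eventually_ge_atTop m] with j hj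
    rw [Real.norm_of_nonneg (hv0 m j)]
    exact hvb m j (by omega)
  have hvt : ∀ m, m < 3 → ∑' j, v m j ≤ c := by
    intro m hm
    rw [← hgs.tsum_eq]
    exact (hvs m).tsum_le_tsum (fun j => hvb m j (by omega)) hgs.summable
  set f : ℕ → ℂ → ℝ := fun j w => ε j * Q j w with hf
  have hfs : ∀ j, ContDiff ℝ ∞ (f j) := fun j => contDiff_const.mul (hQs j)
  have hfb : ∀ m j w, ‖iteratedFDeriv ℝ m (f j) w‖ ≤ v m j := by
    intro m j w
    have h1 : f j = ε j • Q j := rfl
    rw [h1, iteratedFDeriv_const_smul_apply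
      ((hQs j).contDiffAt.of_le (WithTop.coe_le_coe.2 (le_top : (m : ℕ∞) ≤ ⊤))), norm_smul,
      Real.norm_of_nonneg (hε0 j)]
    exact mul_le_mul_of_nonneg_left (hC j m w) (hε0 j)
  obtain ⟨t1, t2, t3, t4, t5, t6, t7, t8, t9⟩ := tsum_facts f hfs v hvs hfb
  set S : ℂ → ℝ := fun w => ∑' j, f j w with hS
  have hpS : (fun w => ∑' j, ε j * P j w) = fun w => ek kap w * S w := by
    funext w
    rw [hS]
    simp only
    rw [← tsum_mul_left]
    congr 1
    funext j
    rw [hPQ j w]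
    simp only [hf]
    ring
  have hεP : ∀ j, (fun w => ε j * P j w) = fun w => ek kap w * f j w := by
    intro j
    funext w
    rw [hPQ j w]
    simp only [hf]
    ring
  have hlapP : ∀ j w, ε j * lapC (P j) w = ek kap w * (lapC (f j) w + 2 * kap * dT (f j) w +
      kap ^ 2 * f j w) := by
    intro j w
    rw [← lap_ek (hfs j) kap w, ← hεP j]
    have e1 : dS (fun w => ε j * P j w) = fun w => ε j * dS (P j) w := by
      funext z
      unfold dS
      rw [fderiv_const_mul (smooth_diff (hP j) z)]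
      rfl
    have e2 : dT (fun w => ε j * P j w) = fun w => ε j * dT (P j) w := by
      funext z
      unfold dT
      rw [fderiv_const_mul (smooth_diff (hP j) z)]
      rfl
    unfold lapC
    rw [e1, e2]
    have e3 : dS (fun w => ε j * dS (P j) w) w = ε j * dS (dS (P j)) w := by
      show fderiv ℝ (fun w => ε j * dS (P j) w) w 1 = _
      rw [fderiv_const_mul (smooth_diff (dS_smooth (hP j)) w)]
      rfl
    have e4 : dT (fun w => ε j * dT (P j) w) w = ε j * dT (dT (P j)) w := by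
      show fderiv ℝ (fun w => ε j * dT (P j) w) w Complex.I = _
      rw [fderiv_const_mul (smooth_diff (dT_smooth (hP j)) w)]
      rfl
    rw [e3, e4]
    ring
  have hexp : ∀ w : ℂ, Real.exp (kap * w.im) = ek kap w := fun w => rfl
  have hep : ∀ w : ℂ, 0 < ek kap w := fun w => Real.exp_pos _
  have hk0 := kap_nonneg
  have hk1 := kap_le
  have hv0c := hvt 0 (by norm_num)
  have hv1c := hvt 1 (by norm_num)
  have hv2c := hvt 2 (by norm_num)
  have hdT : ∀ w, |dT S w| ≤ c := by
    intro w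
    have h3 := (fderiv ℝ S w).le_opNorm Complex.I
    rw [Complex.norm_I, mul_one] at h3
    exact h3.trans ((t4 w).trans hv1c)
  refine ⟨?_, fun w => ?_, fun w => ⟨?_, ?_, ?_⟩, fun w => ?_⟩
  · rw [hpS]
    exact (ek_smooth _).mul t1
  · rw [← tsum_mul_left]
    congr 1
    funext j
    rw [hper]
    ring
  · have h1 : (∑' j, ε j * P j w) = ek kap w * S w := congrFun hpS w
    rw [h1, abs_mul, abs_of_pos (hep w), hexp, mul_comm]
    have h2 := t3 w
    apply mul_le_mul_of_nonneg_right _ (hep w).le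
    linarith
  · rw [hpS, hexp]
    refine (norm_fderiv_ek t1 hk0 w).trans ?_
    rw [mul_comm]
    apply mul_le_mul_of_nonneg_right _ (hep w).le
    have h2 := t3 w
    have h3 := t4 w
    have h4 : kap * |S w| ≤ 1 * c := mul_le_mul hk1 (h2.trans hv0c) (abs_nonneg _) zero_le_one
    linarith
  · rw [hpS, hexp, lap_ek t1 kap w, abs_mul, abs_of_pos (hep w), mul_comm]
    apply mul_le_mul_of_nonneg_right _ (hep w).le
    have h2 : |kap ^ 2 * S w| ≤ c := by
      rw [abs_mul, abs_of_nonneg (by positivity)]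
      have h5 : kap ^ 2 ≤ 1 := by nlinarith
      calc kap ^ 2 * |S w| ≤ 1 * c := mul_le_mul h5 ((t3 w).trans hv0c) (abs_nonneg _) zero_le_one
        _ = c := one_mul c
    have h3 : |2 * kap * dT S w| ≤ 2 * c := by
      rw [abs_mul, abs_of_nonneg (by positivity)]
      exact mul_le_mul (by linarith) (hdT w) (abs_nonneg _) (by norm_num)
    have h4 := t9 w
    have h5 : |lapC S w + 2 * kap * dT S w + kap ^ 2 * S w| ≤ |lapC S w| + |2 * kap * dT S w| +
        |kap ^ 2 * S w| := abs_add_three _ _ _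
    linarith
  · have hsum : Summable fun j => lapC (f j) w + 2 * kap * dT (f j) w + kap ^ 2 * f j w :=
      ((t6 w).add ((t5 w).mul_left (2 * kap))).add ((t2 w).mul_left (kap ^ 2))
    have h1 : (fun j => ε j * lapC (P j) w) = fun j => ek kap w * (lapC (f j) w + 2 * kap * dT (f j) w +
        kap ^ 2 * f j w) := funext fun j => hlapP j w
    refine ⟨?_, ?_⟩
    · rw [h1]
      exact hsum.mul_left _
    · rw [hpS, lap_ek t1 kap w, h1, tsum_mul_left, t8 w, t7 w]
      congr 1
      rw [Summable.tsum_add ((t6 w).add ((t5 w).mul_left (2 * kap))) ((t2 w).mul_left (kap ^ 2)),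
        Summable.tsum_add (t6 w) ((t5 w).mul_left (2 * kap)), tsum_mul_left, tsum_mul_left]

end Pool.Agent.Helper98.AB
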