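import Pool.Agent.Helper98.AB.SUM

/-! # Project AB, packet VN -/

open MeasureTheory Set Filter Topology
open scoped ContDiff

noncomputable section

namespace Pool.Agent.Helper98.AB

open Pool.Agent.Helper24.AB Pool.Agent.Helper15.AB

/-- reduction modulo `2πi` -/
def Wr (w : ℂ) : ℂ := w - (⌊w.im / (2 * Real.pi)⌋ : ℤ) * tpi

theorem two_pi_pos' : (0 : ℝ) < 2 * Real.pi := by positivity

theorem tpi_re : tpi.re = 0 := by simp [tpi]

theorem tpi_im : tpi.im = 2 * Real.pi := by simp [tpi]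

theorem int_tpi_re (k : ℤ) : ((k : ℂ) * tpi).re = 0 := by simp [tpi]

theorem int_tpi_im (k : ℤ) : ((k : ℂ) * tpi).im = k * (2 * Real.pi) := by simp [tpi]

theorem Wr_re (w : ℂ) : (Wr w).re = w.re := by
  unfold Wr
  rw [Complex.sub_re, int_tpi_re, sub_zero]

theorem Wr_add (w : ℂ) : Wr (w + tpi) = Wr w := by
  unfold Wr
  have h1 : (w + tpi).im / (2 * Real.pi) = w.im / (2 * Real.pi) + 1 := by
    rw [Complex.add_im, tpi_im, add_div, div_self two_pi_pos'.ne']
  rw [h1, Int.floor_add_one]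
  push_cast
  ring

/-- identification of the reduction -/
theorem Wr_eq {w : ℂ} {k : ℤ} (h1 : 0 ≤ (w - k * tpi).im) (h2 : (w - k * tpi).im < 2 * Real.pi) :
    Wr w = w - k * tpi := by
  rw [Complex.sub_im, int_tpi_im] at h1 h2
  have h3 : ⌊w.im / (2 * Real.pi)⌋ = k := by
    rw [Int.floor_eq_iff]
    constructor
    · rw [le_div_iff₀ two_pi_pos']
      linarith
    · rw [div_lt_iff₀ two_pi_pos']
      linarith
  unfold Wr
  rw [h3]

theorem Wr_id {w : ℂ} (h1 : 0 ≤ w.im) (h2 : w.im < 2 * Real.pi) : Wr w = w := by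
  have := Wr_eq (w := w) (k := 0) (by simpa using h1) (by simpa using h2)
  simpa using this

section periodize
variable {g : ℂ → ℝ} {α β : ℝ}

theorem per_near (hα : 0 < α) (hβ : β < 2 * Real.pi)
    (h0 : ∀ y : ℂ, y.im ≤ α ∨ β ≤ y.im → g y = 0) {w : ℂ} (hw0 : 0 ≤ w.im) (hw1 : w.im < 2 * Real.pi) :
    (fun w => g (Wr w)) =ᶠ[𝓝 w] g := by
  have ho : IsOpen {z : ℂ | -(2 * Real.pi - max β 0) < z.im ∧ z.im < 2 * Real.pi} :=
    (isOpen_lt continuous_const Complex.continuous_im).inter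
      (isOpen_lt Complex.continuous_im continuous_const)
  have hd : 0 < 2 * Real.pi - max β 0 := by
    have := max_lt hβ two_pi_pos'
    linarith
  have hm : w ∈ {z : ℂ | -(2 * Real.pi - max β 0) < z.im ∧ z.im < 2 * Real.pi} :=
    ⟨by linarith, hw1⟩
  filter_upwards [ho.mem_nhds hm] with z hz
  obtain ⟨hz1, hz2⟩ := hz
  by_cases h : 0 ≤ z.im
  · rw [Wr_id h hz2]
  · rw [not_le] at h
    have hb1 := le_max_left β 0
    have hb2 := le_max_right β 0
    have e1 : (z - ((-1 : ℤ) : ℂ) * tpi).im = z.im + 2 * Real.pi := by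
      rw [Complex.sub_im, int_tpi_im]
      push_cast
      ring
    have h1 : Wr z = z - ((-1 : ℤ) : ℂ) * tpi := by
      apply Wr_eq
      · rw [e1]; linarith
      · rw [e1]; linarith
    rw [h1, h0 (z - ((-1 : ℤ) : ℂ) * tpi) (Or.inr (by rw [e1]; linarith)), h0 z (Or.inl (by linarith))]

theorem per_smooth (hg : ContDiff ℝ ∞ g) (hα : 0 < α) (hβ : β < 2 * Real.pi)
    (h0 : ∀ y : ℂ, y.im ≤ α ∨ β ≤ y.im → g y = 0) : ContDiff ℝ ∞ fun w => g (Wr w) := by
  have hper : ∀ w, (fun w => g (Wr w)) (w + tpi) = (fun w => g (Wr w)) w := by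
    intro w
    simp only [Wr_add]
  rw [contDiff_iff_contDiffAt]
  intro w
  obtain ⟨k, hk, -⟩ := existsUnique_add_zsmul_mem_Ico two_pi_pos' w.im 0
  have him : (w + k * tpi).im = w.im + k • (2 * Real.pi) := by
    rw [Complex.add_im, int_tpi_im, zsmul_eq_mul]
  rw [zero_add, ← him] at hk
  have h1 : ContDiffAt ℝ ∞ (fun w => g (Wr w)) (w + k * tpi) :=
    hg.contDiffAt.congr_of_eventuallyEq (per_near hα hβ h0 hk.1 hk.2)
  have h2 : (fun w => g (Wr w)) = fun z => (fun w => g (Wr w)) (z + k * tpi) := by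
    funext z
    exact (int_per (f := fun w => g (Wr w)) hper k z).symm
  rw [h2]
  exact ContDiffAt.comp w (f := fun z => z + k * tpi) h1 (contDiffAt_id.add contDiffAt_const)

end periodize

/-- the cut-off in `σ` -/
def v0 (a x : ℝ) : ℝ := Real.smoothTransition (9 / 5 - 64 / (5 * a ^ 2) * x ^ 2)

theorem v0_smooth (a : ℝ) : ContDiff ℝ ∞ (v0 a) := by
  unfold v0
  exact Real.smoothTransition.contDiff.comp (contDiff_const.sub (contDiff_const.mul (contDiff_id.pow 2)))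

theorem v0_one {a x : ℝ} (ha : 0 < a) (hx : |x| ≤ a / 4) : v0 a x = 1 := by
  unfold v0
  apply Real.smoothTransition.one_of_one_le
  have h1 : x ^ 2 ≤ (a / 4) ^ 2 := by
    rw [← sq_abs]
    exact pow_le_pow_left₀ (abs_nonneg _) hx 2
  have h2 : 64 / (5 * a ^ 2) * x ^ 2 ≤ 64 / (5 * a ^ 2) * (a / 4) ^ 2 :=
    mul_le_mul_of_nonneg_left h1 (by positivity)
  have h3 : 64 / (5 * a ^ 2) * (a / 4) ^ 2 = 4 / 5 := by
    field_simp
    ring
  linarith

theorem v0_zero {a x : ℝ} (ha : 0 < a) (hx : 3 * a / 8 ≤ |x|) : v0 a x = 0 := by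
  unfold v0
  apply Real.smoothTransition.zero_of_nonpos
  have h1 : (3 * a / 8) ^ 2 ≤ x ^ 2 := by
    rw [← sq_abs x]
    exact pow_le_pow_left₀ (by positivity) hx 2
  have h2 : 64 / (5 * a ^ 2) * (3 * a / 8) ^ 2 ≤ 64 / (5 * a ^ 2) * x ^ 2 :=
    mul_le_mul_of_nonneg_left h1 (by positivity)
  have h3 : 64 / (5 * a ^ 2) * (3 * a / 8) ^ 2 = 9 / 5 := by
    field_simp
    ring
  linarith

theorem v0_mem (a x : ℝ) : 0 ≤ v0 a x ∧ v0 a x ≤ 1 :=
  ⟨Real.smoothTransition.nonneg _, Real.smoothTransition.le_one _⟩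

/-- a sum of functions in which at most one is nonzero -/
theorem sum_one {ι : Type*} (S : Finset ι) (f : ι → ℝ) (h0 : ∀ i ∈ S, 0 ≤ f i) (C : ℝ) (hC : 0 ≤ C)
    (h1 : ∀ i ∈ S, f i ≤ C) (hd : ∀ i ∈ S, ∀ j ∈ S, f i ≠ 0 → f j ≠ 0 → i = j) :
    0 ≤ ∑ i ∈ S, f i ∧ (∑ i ∈ S, f i) ≤ C ∧ (∑ i ∈ S, f i) ^ 2 ≤ ∑ i ∈ S, f i ^ 2 := by
  refine ⟨Finset.sum_nonneg h0, ?_⟩
  by_cases h : ∃ i ∈ S, f i ≠ 0
  · obtain ⟨i, hi, hfi⟩ := h
    have h2 : ∑ j ∈ S, f j = f i := by
      apply Finset.sum_eq_single i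
      · intro j hj hne
        by_contra h3
        exact hne (hd j hj i hi h3 hfi)
      · intro h3
        exact absurd hi h3
    rw [h2]
    exact ⟨h1 i hi, Finset.single_le_sum (f := fun i => f i ^ 2) (fun j _ => sq_nonneg _) hi⟩
  · push Not at h
    rw [Finset.sum_eq_zero h]
    exact ⟨hC, by rw [zero_pow two_ne_zero]; exact Finset.sum_nonneg fun j _ => sq_nonneg _⟩

theorem cell_meas (a : ℝ) : MeasurableSet (cell a) := by
  unfold cell
  have h1 : MeasurableSet {w : ℂ | |w.re| < a} := (isOpen_lt (by fun_prop) continuous_const).measurableSet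
  have h2 : MeasurableSet {w : ℂ | 0 ≤ w.im} :=
    (isClosed_le continuous_const Complex.continuous_im).measurableSet
  have h3 : MeasurableSet {w : ℂ | w.im < 2 * Real.pi} :=
    (isOpen_lt Complex.continuous_im continuous_const).measurableSet
  exact h1.inter (h2.inter h3)

theorem cell_bdd (a : ℝ) : Bornology.IsBounded (cell a) := by
  have h1 : cell a ⊆ (Icc (-a) a) ×ℂ (Icc (0 : ℝ) (2 * Real.pi)) := by
    intro w hw
    obtain ⟨h2, h3, h4⟩ := hw
    rw [abs_lt] at h2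
    rw [Complex.mem_reProdIm]
    exact ⟨⟨h2.1.le, h2.2.le⟩, ⟨h3, h4.le⟩⟩
  exact (isCompact_Icc.reProdIm isCompact_Icc).isBounded.subset h1

theorem vn (hPSI : S_PSI) : S_VN := by
  obtain ⟨C₀, hC₀, hψ⟩ := hPSI
  intro a ha ha2
  have hvd : Continuous (deriv (v0 a)) := (v0_smooth a).continuous_deriv (by simp)
  obtain ⟨L, hL⟩ := (isCompact_Icc (a := -a) (b := a)).exists_bound_of_continuousOn hvd.continuousOn
  refine ⟨2 * L ^ 2 * (volume (cell a)).toReal + 4 * C₀, ?_⟩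
  intro S r R hS hSd hSs
  -- the cut-off functions
  have hex : ∀ x : ℂ, ∃ ψ : ℂ → ℝ, x ∈ S → ContDiff ℝ ∞ ψ ∧
      (∀ w, 0 ≤ ψ w ∧ ψ w ≤ 1) ∧ (∀ w, ‖w‖ ≤ r x → ψ w = 1) ∧ (∀ w, R x ≤ ‖w‖ → ψ w = 0) ∧
      (∫ w, ‖fderiv ℝ ψ w‖ ^ 2) ≤ C₀ / Real.log (R x / r x) := by
    intro x
    by_cases hx : x ∈ S
    · obtain ⟨ψ, hψ'⟩ := hψ (r x) (R x) (hS x hx).1 (hS x hx).2.1
      exact ⟨ψ, fun _ => hψ'⟩
    · exact ⟨0, fun h => absurd h hx⟩
  choose ψ hψx using hex
  have p1 : ∀ x ∈ S, ContDiff ℝ ∞ (ψ x) := fun x hx => (hψx x hx).1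
  have p2 : ∀ x ∈ S, ∀ w, 0 ≤ ψ x w ∧ ψ x w ≤ 1 := fun x hx => (hψx x hx).2.1
  have p3 : ∀ x ∈ S, ∀ w, ‖w‖ ≤ r x → ψ x w = 1 := fun x hx => (hψx x hx).2.2.1
  have p4 : ∀ x ∈ S, ∀ w, R x ≤ ‖w‖ → ψ x w = 0 := fun x hx => (hψx x hx).2.2.2.1
  have p5 : ∀ x ∈ S, (∫ w, ‖fderiv ℝ (ψ x) w‖ ^ 2) ≤ C₀ / Real.log (R x / r x) :=
    fun x hx => (hψx x hx).2.2.2.2
  -- supports
  have q1 : ∀ x ∈ S, ∀ y : ℂ, y.im ≤ x.im - R x ∨ x.im + R x ≤ y.im → ψ x (y - x) = 0 := by
    intro x hx y hy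
    apply p4 x hx
    have h1 : |(y - x).im| ≤ ‖y - x‖ := Complex.abs_im_le_norm _
    rw [Complex.sub_im] at h1
    refine le_trans ?_ h1
    rcases hy with h | h
    · rw [le_abs]; right; linarith
    · rw [le_abs]; left; linarith
  have q2 : ∀ x ∈ S, ∀ y ∈ S, ∀ z : ℂ, ‖z - x‖ ≤ R x → ‖z - y‖ ≤ R y → x = y := by
    intro x hx y hy z h1 h2
    by_contra h3
    have h4 := hSd x hx y hy h3
    have h5 : ‖x - y‖ ≤ ‖z - x‖ + ‖z - y‖ := by
      have : x - y = (z - y) - (z - x) := by ring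
      rw [this]
      have := norm_sub_le (z - y) (z - x)
      linarith
    linarith
  have q3 : ∀ z : ℂ, ∀ x ∈ S, ∀ y ∈ S, ψ x (z - x) ≠ 0 → ψ y (z - y) ≠ 0 → x = y := by
    intro z x hx y hy h1 h2
    refine q2 x hx y hy z ?_ ?_
    · by_contra h3
      rw [not_le] at h3
      exact h1 (p4 x hx _ h3.le)
    · by_contra h3
      rw [not_le] at h3
      exact h2 (p4 y hy _ h3.le)
  have q4 : ∀ x ∈ S, ∀ z : ℂ, fderiv ℝ (ψ x) z ≠ 0 → ‖z‖ ≤ R x := by
    intro x hx z h1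
    by_contra h2
    rw [not_le] at h2
    apply h1
    have h3 : ψ x =ᶠ[𝓝 z] fun _ => 0 := by
      have h4 : IsOpen {y : ℂ | R x < ‖y‖} := isOpen_lt continuous_const continuous_norm
      filter_upwards [h4.mem_nhds h2] with y hy
      exact p4 x hx y (le_of_lt hy)
    rw [h3.fderiv_eq]
    simp
  -- the sum
  set Ψ : ℂ → ℝ := fun w => ∑ x ∈ S, ψ x (w - x) with hΨ
  have hΨm : ∀ z, 0 ≤ Ψ z ∧ Ψ z ≤ 1 := by
    intro z
    have h1 := sum_one S (fun x => ψ x (z - x)) (fun x hx => (p2 x hx _).1) 1 zero_le_one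
      (fun x hx => (p2 x hx _).2) (q3 z)
    exact ⟨h1.1, h1.2.1⟩
  set V : ℂ → ℝ := fun w => v0 a w.re * (1 - Ψ w) with hV
  set v : ℂ → ℝ := fun w => v0 a w.re * (1 - ∑ x ∈ S, ψ x (Wr w - x)) with hv
  have hvV : ∀ w, v w = V (Wr w) := by
    intro w
    simp only [hv, hV, hΨ, Wr_re]
  have hψs : ∀ x ∈ S, ContDiff ℝ ∞ fun w => ψ x (w - x) := fun x hx =>
    (p1 x hx).comp (contDiff_id.sub contDiff_const)
  have hv0s : ContDiff ℝ ∞ fun w : ℂ => v0 a w.re := (v0_smooth a).comp Complex.reCLM.contDiff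
  have hvs : ContDiff ℝ ∞ v := by
    refine hv0s.mul (contDiff_const.sub (ContDiff.sum fun x hx => ?_))
    obtain ⟨-, -, h3, h4⟩ := hS x hx
    exact per_smooth (g := fun y => ψ x (y - x)) (α := x.im - R x) (β := x.im + R x) (hψs x hx)
      (by linarith) (by linarith) (q1 x hx)
  refine ⟨v, hvs, ?_, ?_, ?_, ?_, ?_, ?_⟩
  · intro w
    simp only [hv, Wr_add]
    rw [Complex.add_re, tpi_re, add_zero]
  · intro w
    rw [hvV]
    obtain ⟨h1, h2⟩ := hΨm (Wr w)
    obtain ⟨h3, h4⟩ := v0_mem a (Wr w).re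
    constructor
    · exact mul_nonneg h3 (by linarith)
    · exact mul_le_one₀ h4 (by linarith) (by linarith)
  · intro w hw
    simp only [hv]
    rw [v0_zero ha hw, zero_mul]
  · -- the integral
    have hnear : ∀ w ∈ cell a, v =ᶠ[𝓝 w] V := by
      intro w hw
      obtain ⟨-, hw1, hw2⟩ := hw
      have h1 : ∀ᶠ z in 𝓝 w, ∀ x ∈ S, ψ x (Wr z - x) = ψ x (z - x) := by
        rw [Finset.eventually_all]
        intro x hx
        obtain ⟨-, -, h3, h4⟩ := hS x hx
        exact per_near (g := fun y => ψ x (y - x)) (α := x.im - R x) (β := x.im + R x)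
          (by linarith) (by linarith) (q1 x hx) hw1 hw2
      filter_upwards [h1] with z hz
      simp only [hv, hV, hΨ]
      rw [Finset.sum_congr rfl hz]
    have hfd : ∀ w ∈ cell a, ‖fderiv ℝ v w‖ ^ 2 ≤
        2 * L ^ 2 + 2 * ∑ x ∈ S, ‖fderiv ℝ (ψ x) (w - x)‖ ^ 2 := by
      intro w hw
      rw [(hnear w hw).fderiv_eq]
      have d1 : HasFDerivAt (fun w : ℂ => v0 a w.re) (deriv (v0 a) w.re • Complex.reCLM) w := by
        have h1 : HasDerivAt (v0 a) (deriv (v0 a) w.re) w.re :=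
          ((v0_smooth a).differentiable (by simp) _).hasDerivAt
        exact h1.comp_hasFDerivAt w Complex.reCLM.hasFDerivAt
      have d2 : HasFDerivAt Ψ (∑ x ∈ S, fderiv ℝ (ψ x) (w - x)) w := by
        apply HasFDerivAt.fun_sum
        intro x hx
        have h1 : DifferentiableAt ℝ (fun w => ψ x (w - x)) w := (hψs x hx).differentiable (by simp) w
        have h2 := h1.hasFDerivAt
        rwa [fderiv_comp_sub] at h2
      have d3 := d1.mul (d2.const_sub 1)
      have hVe : fderiv ℝ V w = v0 a w.re • (-∑ x ∈ S, fderiv ℝ (ψ x) (w - x)) +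
          (1 - Ψ w) • (deriv (v0 a) w.re • Complex.reCLM) := d3.fderiv
      rw [hVe]
      set B : ℝ := ∑ x ∈ S, ‖fderiv ℝ (ψ x) (w - x)‖ with hB
      have hB0 : 0 ≤ B := Finset.sum_nonneg fun x _ => norm_nonneg _
      have hL' : |deriv (v0 a) w.re| ≤ L := by
        obtain ⟨hw0, -, -⟩ := hw
        rw [abs_lt] at hw0
        exact hL _ ⟨hw0.1.le, hw0.2.le⟩
      have hL0 : 0 ≤ L := (abs_nonneg _).trans hL'
      obtain ⟨h3, h4⟩ := v0_mem a w.re
      obtain ⟨h5, h6⟩ := hΨm w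
      have n1 : ‖v0 a w.re • (-∑ x ∈ S, fderiv ℝ (ψ x) (w - x))‖ ≤ B := by
        rw [norm_smul, norm_neg, Real.norm_of_nonneg h3]
        calc v0 a w.re * ‖∑ x ∈ S, fderiv ℝ (ψ x) (w - x)‖ ≤ 1 * B :=
              mul_le_mul h4 (norm_sum_le _ _) (norm_nonneg _) zero_le_one
          _ = B := one_mul B
      have n2 : ‖(1 - Ψ w) • (deriv (v0 a) w.re • Complex.reCLM)‖ ≤ L := by
        rw [norm_smul, norm_smul, Real.norm_of_nonneg (by linarith), Complex.reCLM_norm, mul_one,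
          Real.norm_eq_abs]
        calc (1 - Ψ w) * |deriv (v0 a) w.re| ≤ 1 * L :=
              mul_le_mul (by linarith) hL' (abs_nonneg _) zero_le_one
          _ = L := one_mul L
      have n3 := (norm_add_le (v0 a w.re • (-∑ x ∈ S, fderiv ℝ (ψ x) (w - x)))
        ((1 - Ψ w) • (deriv (v0 a) w.re • Complex.reCLM))).trans (add_le_add n1 n2)
      have n4 : B ^ 2 ≤ ∑ x ∈ S, ‖fderiv ℝ (ψ x) (w - x)‖ ^ 2 := by
        refine (sum_one S (fun x => ‖fderiv ℝ (ψ x) (w - x)‖) (fun x _ => norm_nonneg _) B hB0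
          (fun x hx => Finset.single_le_sum (f := fun x => ‖fderiv ℝ (ψ x) (w - x)‖)
            (fun j _ => norm_nonneg _) hx) ?_).2.2
        intro x hx y hy h1 h2
        exact q2 x hx y hy w (q4 x hx _ (norm_ne_zero_iff.1 h1)) (q4 y hy _ (norm_ne_zero_iff.1 h2))
      have n5 : ‖v0 a w.re • (-∑ x ∈ S, fderiv ℝ (ψ x) (w - x)) +
          (1 - Ψ w) • (deriv (v0 a) w.re • Complex.reCLM)‖ ^ 2 ≤ (B + L) ^ 2 :=
        pow_le_pow_left₀ (norm_nonneg _) n3 2
      nlinarith [sq_nonneg (B - L)]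
    -- integrability
    have hint : ∀ x ∈ S, Integrable (fun w => ‖fderiv ℝ (ψ x) w‖ ^ 2) := by
      intro x hx
      have hc : Continuous fun w => ‖fderiv ℝ (ψ x) w‖ ^ 2 :=
        (((p1 x hx).continuous_fderiv (by simp)).norm).pow 2
      apply hc.integrable_of_hasCompactSupport
      apply HasCompactSupport.intro (isCompact_closedBall (0 : ℂ) (R x))
      intro w hw
      rw [Metric.mem_closedBall, dist_zero_right, not_le] at hw
      have h1 : fderiv ℝ (ψ x) w = 0 := by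
        by_contra h2
        have := q4 x hx w h2
        linarith
      rw [h1, norm_zero, zero_pow two_ne_zero]
    have hint2 : ∀ x ∈ S, Integrable (fun w => ‖fderiv ℝ (ψ x) (w - x)‖ ^ 2) := fun x hx =>
      (hint x hx).comp_sub_right x
    have hfin : volume (cell a) ≠ ⊤ := (cell_bdd a).measure_lt_top.ne
    have hsumi : Integrable (fun w => ∑ x ∈ S, ‖fderiv ℝ (ψ x) (w - x)‖ ^ 2) :=
      integrable_finsetSum S hint2
    have hci : IntegrableOn (fun _ : ℂ => 2 * L ^ 2) (cell a) := integrableOn_const hfin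
    calc ∫ w in cell a, ‖fderiv ℝ v w‖ ^ 2
        ≤ ∫ w in cell a, (2 * L ^ 2 + 2 * ∑ x ∈ S, ‖fderiv ℝ (ψ x) (w - x)‖ ^ 2) := by
          apply integral_mono_of_nonneg
          · exact Eventually.of_forall fun w => sq_nonneg _
          · exact hci.add (hsumi.integrableOn.const_mul 2)
          · rw [EventuallyLE, ae_restrict_iff' (cell_meas a)]
            exact Eventually.of_forall fun w hw => hfd w hw
      _ = 2 * L ^ 2 * (volume (cell a)).toReal +
          2 * ∫ w in cell a, ∑ x ∈ S, ‖fderiv ℝ (ψ x) (w - x)‖ ^ 2 := by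
          rw [integral_add hci (hsumi.integrableOn.const_mul 2), setIntegral_const, integral_const_mul,
            smul_eq_mul, Measure.real]
          ring
      _ ≤ 2 * L ^ 2 * (volume (cell a)).toReal + 2 * (C₀ * 2) := by
          gcongr
          calc ∫ w in cell a, ∑ x ∈ S, ‖fderiv ℝ (ψ x) (w - x)‖ ^ 2
              ≤ ∫ w, ∑ x ∈ S, ‖fderiv ℝ (ψ x) (w - x)‖ ^ 2 :=
                setIntegral_le_integral hsumi
                  (Eventually.of_forall fun w => Finset.sum_nonneg fun x _ => sq_nonneg _)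
            _ = ∑ x ∈ S, ∫ w, ‖fderiv ℝ (ψ x) (w - x)‖ ^ 2 := integral_finsetSum S hint2
            _ ≤ ∑ x ∈ S, C₀ * (1 / Real.log (R x / r x)) := by
                apply Finset.sum_le_sum
                intro x hx
                rw [integral_sub_right_eq_self (μ := (volume : Measure ℂ))
                  (fun w => ‖fderiv ℝ (ψ x) w‖ ^ 2) x]
                have := p5 x hx
                rw [div_eq_mul_one_div] at this
                exact this
            _ = C₀ * ∑ x ∈ S, 1 / Real.log (R x / r x) := by rw [Finset.mul_sum]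
            _ ≤ C₀ * 2 := mul_le_mul_of_nonneg_left hSs hC₀.le
      _ = _ := by ring
  · intro w hw hx
    simp only [hv]
    rw [v0_one ha hw, one_mul, Finset.sum_eq_zero, sub_zero]
    intro x hxS
    apply p4 x hxS
    have h1 : |(Wr w - x).re| ≤ ‖Wr w - x‖ := Complex.abs_re_le_norm _
    rw [Complex.sub_re, Wr_re] at h1
    exact (hx x hxS).trans h1
  · intro x hx k w hw
    obtain ⟨h1, h2, h3, h4⟩ := hS x hx
    have h5 : |(w - x - k * tpi).im| ≤ ‖w - x - k * tpi‖ := Complex.abs_im_le_norm _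
    have h6 : w - x - k * tpi = (w - k * tpi) - x := by ring
    rw [h6] at h5 hw
    rw [Complex.sub_im, abs_le] at h5
    have h7 : Wr w = w - k * tpi := by
      apply Wr_eq
      · linarith [h5.1]
      · linarith [h5.2]
    have h8 : Ψ (Wr w) = 1 := by
      apply le_antisymm (hΨm _).2
      have h9 : ψ x (Wr w - x) = 1 := by
        rw [h7]
        exact p3 x hx _ hw
      rw [← h9]
      exact Finset.single_le_sum (f := fun x => ψ x (Wr w - x)) (fun y hy => (p2 y hy _).1) hx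
    rw [hvV]
    simp only [hV]
    rw [h8, sub_self, mul_zero]

end Pool.Agent.Helper98.AB
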